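import Mathlib

/-!
Definitions for MP_ccd96b_co: translative convex hull constants in the relative norm.
-/

set_option autoImplicit false

open MeasureTheory Set
open scoped RealInnerProductSpace Pointwise

namespace Pool.Agent.Lib.MP_ccd96b_co

variable {d : ℕ}

/-- convex body: compact, convex, with non-empty interior -/
def IsBody (K : Set (EuclideanSpace ℝ (Fin d))) : Prop :=
  IsCompact K ∧ Convex ℝ K ∧ (interior K).Nonempty

/-- Lebesgue measure as a real number -/
noncomputable def vol (S : Set (EuclideanSpace ℝ (Fin d))) : ℝ := (volume S).toReal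

/-- volume of the Euclidean unit ball -/
noncomputable def kappa (d : ℕ) : ℝ := vol (Metric.closedBall (0 : EuclideanSpace ℝ (Fin d)) 1)

/-- unit ball of the relative norm -/
def relBall (K : Set (EuclideanSpace ℝ (Fin d))) : Set (EuclideanSpace ℝ (Fin d)) :=
  (1 / 2 : ℝ) • (K - K)

/-- polar body -/
def polar (M : Set (EuclideanSpace ℝ (Fin d))) : Set (EuclideanSpace ℝ (Fin d)) :=
  {y | ∀ x ∈ M, ⟪x, y⟫ ≤ 1}

/-- cross-polytope with centre `c` and half-diagonals `v i` -/
def crossPolytope (c : EuclideanSpace ℝ (Fin d)) (v : Fin d → EuclideanSpace ℝ (Fin d)) :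
    Set (EuclideanSpace ℝ (Fin d)) :=
  convexHull ℝ ((range fun i => c + v i) ∪ range fun i => c - v i)

/-- parallelotope with vertex `c` and edge vectors `w i` -/
def parallelotope (c : EuclideanSpace ℝ (Fin d)) (w : Fin d → EuclideanSpace ℝ (Fin d)) :
    Set (EuclideanSpace ℝ (Fin d)) :=
  {x | ∃ t : Fin d → ℝ, (∀ i, 0 ≤ t i ∧ t i ≤ 1) ∧ x = c + ∑ i, t i • w i}

/-- Holmes-Thompson volume in the norm with unit ball `M` -/
noncomputable def volHT (M S : Set (EuclideanSpace ℝ (Fin d))) : ℝ :=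
  vol (polar M) / kappa d * vol S

/-- Gromov mass in the norm with unit ball `M` -/
noncomputable def volMass (M S : Set (EuclideanSpace ℝ (Fin d))) : ℝ :=
  (2 ^ d / (d.factorial : ℝ)) /
    sSup {x | ∃ c v, crossPolytope c v ⊆ M ∧ x = vol (crossPolytope c v)} * vol S

/-- Gromov mass-star (Benson volume) in the norm with unit ball `M` -/
noncomputable def volMassStar (M S : Set (EuclideanSpace ℝ (Fin d))) : ℝ :=
  2 ^ d / sInf {x | ∃ c w, M ⊆ parallelotope c w ∧ x = vol (parallelotope c w)} * vol S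

/-- the translative constant of `K` for the normalised volume `μ` -/
noncomputable def cTr (μ : Set (EuclideanSpace ℝ (Fin d)) → Set (EuclideanSpace ℝ (Fin d)) → ℝ)
    (K : Set (EuclideanSpace ℝ (Fin d))) : ℝ :=
  sSup {x | ∃ p : EuclideanSpace ℝ (Fin d), ((p +ᵥ K) ∩ K).Nonempty ∧
    x = μ (relBall K) (convexHull ℝ (K ∪ (p +ᵥ K)))}

/-- the explicit one-parameter function giving the Holmes-Thompson constant -/
noncomputable def profile (d : ℕ) (ν : ℝ) : ℝ :=
  Real.exp (-(1 / 4) * ∫ p in (0 : ℝ)..1, (1 - p) ^ (d - 1) /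
      (√(ν ^ 2 + p * (1 - p) ^ (d - 1)) * (√(ν ^ 2 + p * (1 - p) ^ (d - 1)) + ν))) +
    (1 / 2) * ∫ p in (0 : ℝ)..1, (1 - p) ^ (d - 1) / √(ν ^ 2 + p * (1 - p) ^ (d - 1))

end Pool.Agent.Lib.MP_ccd96b_co
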