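import Pool.Agent.Lib.MP_ccd96b_co.HTUpper

/-!
The extremal bodies of revolution in the Holmes-Thompson case.
-/

set_option autoImplicit false

open MeasureTheory Set ENNReal Metric Filter Topology
open scoped RealInnerProductSpace Pointwise

namespace Pool.Agent.Lib.MP_ccd96b_co

open Pool.Agent.Shared.BM

noncomputable def om (k : ℕ) (ν p : ℝ) : ℝ := 1 / (2 * (RR (k + 1) ν p * (RR (k + 1) ν p + ν)))
noncomputable def g1 (k : ℕ) (ν p : ℝ) : ℝ := (1 - p) ^ (k + 1) * om k ν p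
noncomputable def g2 (k : ℕ) (ν p : ℝ) : ℝ := p * (1 - p) ^ k * om k ν p
noncomputable def sf (k : ℕ) (ν p : ℝ) : ℝ :=
  Real.exp ((∫ r in (0 : ℝ)..p, g1 k ν r) - ∫ r in (0 : ℝ)..1, g1 k ν r)
noncomputable def yf (k : ℕ) (ν p : ℝ) : ℝ := Real.exp (-∫ r in (0 : ℝ)..p, g2 k ν r)
noncomputable def tf (k : ℕ) (ν p : ℝ) : ℝ := p / sf k ν p
noncomputable def xf (k : ℕ) (ν p : ℝ) : ℝ := (1 - p) / yf k ν p

variable {k : ℕ} {ν : ℝ}

lemma om_pos (hν : 0 < ν) (p : ℝ) : 0 < om k ν p := by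
  have := RR_pos (m := k + 1) hν p
  unfold om; positivity

lemma cont_om (hν : 0 < ν) : Continuous (om k ν) :=
  Continuous.div continuous_const (continuous_const.mul ((continuous_RR' _ ν).mul
    ((continuous_RR' _ ν).add continuous_const))) fun p => by
      have := RR_pos (m := k + 1) hν p
      positivity

lemma cont_g1 (hν : 0 < ν) : Continuous (g1 k ν) :=
  Continuous.mul (by fun_prop) (cont_om hν)

lemma cont_g2 (hν : 0 < ν) : Continuous (g2 k ν) :=
  Continuous.mul (by fun_prop) (cont_om hν)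

lemma sf_pos (p : ℝ) : 0 < sf k ν p := Real.exp_pos _
lemma yf_pos (p : ℝ) : 0 < yf k ν p := Real.exp_pos _
lemma sf_one : sf k ν 1 = 1 := by simp [sf]
lemma yf_zero : yf k ν 0 = 1 := by simp [yf]

lemma sf_zero : sf k ν 0 = Real.exp (-(1 / 4) * TT (k + 1) ν) ^ 2 := by
  have : ∫ r in (0 : ℝ)..1, g1 k ν r = (1 / 2) * TT (k + 1) ν := by
    rw [TT, ← intervalIntegral.integral_const_mul]
    refine intervalIntegral.integral_congr fun p _ => ?_
    simp only [g1, om]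
    rw [one_div, mul_inv, div_eq_mul_inv, div_eq_mul_inv]
    ring
  rw [sf, this, sq, ← Real.exp_add]
  simp only [intervalIntegral.integral_same]
  congr 1; ring

lemma deriv_sf (hν : 0 < ν) (p : ℝ) : HasDerivAt (sf k ν) (sf k ν p * g1 k ν p) p :=
  ((((cont_g1 hν).integral_hasStrictDerivAt 0 p).hasDerivAt).sub_const _).exp

lemma deriv_yf (hν : 0 < ν) (p : ℝ) : HasDerivAt (yf k ν) (yf k ν p * -g2 k ν p) p :=
  ((((cont_g2 hν).integral_hasStrictDerivAt 0 p).hasDerivAt).neg).exp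

lemma deriv_tf (hν : 0 < ν) (p : ℝ) :
    HasDerivAt (tf k ν) ((1 - p * g1 k ν p) / sf k ν p) p := by
  refine ((hasDerivAt_id' p).div (deriv_sf hν p) (sf_pos p).ne').congr_deriv ?_
  have := (sf_pos (k := k) (ν := ν) p).ne'
  field_simp

lemma deriv_xf (hν : 0 < ν) (p : ℝ) :
    HasDerivAt (xf k ν) (-(1 - p * g1 k ν p) / yf k ν p) p := by
  refine (((hasDerivAt_id' p).const_sub 1).div (deriv_yf hν p) (yf_pos p).ne').congr_deriv ?_
  have := (yf_pos (k := k) (ν := ν) p).ne'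
  simp only [g1, g2]
  field_simp
  ring

lemma cont_sf (hν : 0 < ν) : Continuous (sf k ν) :=
  continuous_iff_continuousAt.2 fun p => (deriv_sf hν p).continuousAt
lemma cont_yf (hν : 0 < ν) : Continuous (yf k ν) :=
  continuous_iff_continuousAt.2 fun p => (deriv_yf hν p).continuousAt
lemma cont_tf (hν : 0 < ν) : Continuous (tf k ν) :=
  continuous_iff_continuousAt.2 fun p => (deriv_tf hν p).continuousAt
lemma cont_xf (hν : 0 < ν) : Continuous (xf k ν) :=
  continuous_iff_continuousAt.2 fun p => (deriv_xf hν p).continuousAt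

lemma one_sub_theta (hν : 0 < ν) {p : ℝ} (hp : p ∈ Icc (0 : ℝ) 1) :
    1 - p * g1 k ν p = (RR (k + 1) ν p + ν) / (2 * RR (k + 1) ν p) := by
  have h1 := RR_pos (m := k + 1) hν p
  have h2 := RR_sq (m := k + 1) (ν := ν) hp
  have h3 : p * (1 - p) ^ (k + 1) = RR (k + 1) ν p ^ 2 - ν ^ 2 := by linarith
  rw [g1, ← mul_assoc, h3, om]
  field_simp
  ring

lemma one_sub_theta_pos (hν : 0 < ν) {p : ℝ} (hp : p ∈ Icc (0 : ℝ) 1) :
    0 < 1 - p * g1 k ν p := by
  have h1 := RR_pos (m := k + 1) hν p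
  rw [one_sub_theta hν hp]; positivity

lemma g1_nonneg (hν : 0 < ν) {p : ℝ} (hp : p ∈ Icc (0 : ℝ) 1) : 0 ≤ g1 k ν p :=
  mul_nonneg (w_mem hp).1 (om_pos hν p).le

lemma g2_nonneg (hν : 0 < ν) {p : ℝ} (hp : p ∈ Icc (0 : ℝ) 1) : 0 ≤ g2 k ν p :=
  mul_nonneg (q_nonneg hp) (om_pos hν p).le

lemma strictMono_sf (hν : 0 < ν) : StrictMonoOn (sf k ν) (Icc 0 1) := by
  refine strictMonoOn_of_deriv_pos (convex_Icc 0 1) (cont_sf hν).continuousOn fun p hp => ?_
  rw [interior_Icc] at hp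
  rw [(deriv_sf hν p).deriv]
  exact mul_pos (sf_pos p) (mul_pos (pow_pos (sub_pos.2 hp.2) _) (om_pos hν p))

lemma strictMono_tf (hν : 0 < ν) : StrictMonoOn (tf k ν) (Icc 0 1) := by
  refine strictMonoOn_of_deriv_pos (convex_Icc 0 1) (cont_tf hν).continuousOn fun p hp => ?_
  rw [(deriv_tf hν p).deriv]
  exact div_pos (one_sub_theta_pos hν (interior_subset hp)) (sf_pos p)

lemma anti_yf (hν : 0 < ν) : AntitoneOn (yf k ν) (Icc 0 1) := by
  refine antitoneOn_of_deriv_nonpos (convex_Icc 0 1) (cont_yf hν).continuousOn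
    (fun p _ => (deriv_yf hν p).differentiableAt.differentiableWithinAt) fun p hp => ?_
  rw [(deriv_yf hν p).deriv]
  exact mul_nonpos_of_nonneg_of_nonpos (yf_pos p).le
    (neg_nonpos.2 (g2_nonneg hν (interior_subset hp)))

lemma admissible (hν : 0 < ν) {a b : ℝ} (ha : a ∈ Icc (0 : ℝ) 1) (hb : b ∈ Icc (0 : ℝ) 1) :
    xf k ν a * yf k ν b + tf k ν a * sf k ν b ≤ 1 := by
  have hd : ∀ p, HasDerivAt (fun p => xf k ν p * yf k ν b + tf k ν p * sf k ν b)
      ((1 - p * g1 k ν p) * (sf k ν b / sf k ν p - yf k ν b / yf k ν p)) p := fun p =>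
    (((deriv_xf hν p).mul_const _).add ((deriv_tf hν p).mul_const _)).congr_deriv (by ring)
  have hc : Continuous fun p => xf k ν p * yf k ν b + tf k ν p * sf k ν b :=
    continuous_iff_continuousAt.2 fun p => (hd p).continuousAt
  have hbb : xf k ν b * yf k ν b + tf k ν b * sf k ν b = 1 := by
    rw [xf, tf, div_mul_cancel₀ _ (yf_pos b).ne', div_mul_cancel₀ _ (sf_pos b).ne']; ring
  rw [← hbb]
  rcases le_total a b with h | h
  · refine monotoneOn_of_deriv_nonneg (convex_Icc 0 b) hc.continuousOn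
      (fun p _ => (hd p).differentiableAt.differentiableWithinAt) (fun p hp => ?_)
      ⟨ha.1, h⟩ ⟨hb.1, le_rfl⟩ h
    have hp1 := interior_subset hp
    have hp2 : p ∈ Icc (0 : ℝ) 1 := ⟨hp1.1, hp1.2.trans hb.2⟩
    rw [(hd p).deriv]
    refine mul_nonneg (one_sub_theta_pos hν hp2).le (sub_nonneg.2 ?_)
    exact ((div_le_one (yf_pos p)).2 (anti_yf hν hp2 hb hp1.2)).trans
      ((one_le_div (sf_pos p)).2 ((strictMono_sf hν).monotoneOn hp2 hb hp1.2))
  · refine antitoneOn_of_deriv_nonpos (convex_Icc b 1) hc.continuousOn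
      (fun p _ => (hd p).differentiableAt.differentiableWithinAt) (fun p hp => ?_)
      ⟨le_rfl, hb.2⟩ ⟨h, ha.2⟩ h
    have hp1 := interior_subset hp
    have hp2 : p ∈ Icc (0 : ℝ) 1 := ⟨hb.1.trans hp1.1, hp1.2⟩
    rw [(hd p).deriv]
    refine mul_nonpos_of_nonneg_of_nonpos (one_sub_theta_pos hν hp2).le (sub_nonpos.2 ?_)
    exact ((div_le_one (sf_pos p)).2 ((strictMono_sf hν).monotoneOn hb hp2 hp1.1)).trans
      ((one_le_div (yf_pos p)).2 (anti_yf hν hb hp2 hp1.1))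

lemma sq_le_mul_of_forall {A B V : ℝ} (hA : 0 < A) (hB : 0 < B) (hV : 0 ≤ V)
    (h : ∀ c, 0 < c → 2 * V ≤ c * A + c⁻¹ * B) : V ^ 2 ≤ A * B := by
  have h1 := h (√B / √A) (by positivity)
  have hA' : √A * √A = A := Real.mul_self_sqrt hA.le
  have hB' : √B * √B = B := Real.mul_self_sqrt hB.le
  have a1 : 0 < √A := by positivity
  have a2 : 0 < √B := by positivity
  generalize √A = a at *
  generalize √B = b at *
  subst hA' hB'
  have e : b / a * (a * a) + (b / a)⁻¹ * (b * b) = 2 * (a * b) := by field_simp; ring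
  rw [e] at h1
  have : V ^ 2 ≤ (a * b) ^ 2 := pow_le_pow_left₀ hV (by linarith) 2
  linarith

noncomputable def AA (k : ℕ) (ν : ℝ) : ℝ :=
  ∫ p in (0 : ℝ)..1, (1 - p * g1 k ν p) / sf k ν p * xf k ν p ^ (k + 1)
noncomputable def BB (k : ℕ) (ν : ℝ) : ℝ :=
  ∫ p in (0 : ℝ)..1, sf k ν p * g1 k ν p * yf k ν p ^ (k + 1)

lemma xf_nonneg {p : ℝ} (hp : p ∈ Icc (0 : ℝ) 1) : 0 ≤ xf k ν p :=
  div_nonneg (sub_nonneg.2 hp.2) (yf_pos p).le

lemma cont_tf' (hν : 0 < ν) : Continuous fun p => (1 - p * g1 k ν p) / sf k ν p :=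
  Continuous.div (continuous_const.sub (continuous_id.mul (cont_g1 hν))) (cont_sf hν)
    fun p => (sf_pos p).ne'

lemma AA_nonneg (hν : 0 < ν) : 0 ≤ AA k ν :=
  intervalIntegral.integral_nonneg zero_le_one fun p hp =>
    mul_nonneg (div_pos (one_sub_theta_pos hν hp) (sf_pos p)).le (pow_nonneg (xf_nonneg hp) _)

lemma BB_nonneg (hν : 0 < ν) : 0 ≤ BB k ν :=
  intervalIntegral.integral_nonneg zero_le_one fun p hp =>
    mul_nonneg (mul_nonneg (sf_pos p).le (g1_nonneg hν hp)) (pow_nonneg (yf_pos p).le _)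

lemma amgm {a b r c : ℝ} (ha : 0 ≤ a) (hb : 0 ≤ b) (hc : 0 < c) (h : a * b = r ^ 2) :
    2 * r ≤ c * a + c⁻¹ * b := by
  refine le_trans (le_abs_self _) (abs_le_of_sq_le_sq ?_ (by positivity))
  have e : (c * a + c⁻¹ * b) ^ 2 = (c * a - c⁻¹ * b) ^ 2 + 4 * (a * b) := by field_simp; ring
  rw [e, h]
  nlinarith [sq_nonneg (c * a - c⁻¹ * b)]

lemma VV_sq_le (hν : 0 < ν) : VV (k + 1) ν ^ 2 ≤ (1 + AA k ν) * (sf k ν 0 + BB k ν) := by
  refine sq_le_mul_of_forall (by linarith [AA_nonneg (k := k) hν])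
    (by linarith [BB_nonneg (k := k) hν, sf_pos (k := k) (ν := ν) 0]) (VV_pos hν).le
    fun c hc => ?_
  have h1 : 2 * Real.exp (-(1 / 4) * TT (k + 1) ν) ≤ c * 1 + c⁻¹ * sf k ν 0 :=
    amgm zero_le_one (sf_pos 0).le hc (by rw [one_mul, sf_zero])
  have i1 : IntervalIntegrable (fun p => (1 - p * g1 k ν p) / sf k ν p * xf k ν p ^ (k + 1))
      volume 0 1 := ((cont_tf' hν).mul ((cont_xf hν).pow _)).intervalIntegrable 0 1
  have i2 : IntervalIntegrable (fun p => sf k ν p * g1 k ν p * yf k ν p ^ (k + 1))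
      volume 0 1 := (((cont_sf hν).mul (cont_g1 hν)).mul ((cont_yf hν).pow _)).intervalIntegrable 0 1
  have h2 : II (k + 1) ν ≤ c * AA k ν + c⁻¹ * BB k ν := by
    rw [AA, BB, ← intervalIntegral.integral_const_mul, ← intervalIntegral.integral_const_mul,
      ← intervalIntegral.integral_add (i1.const_mul c) (i2.const_mul c⁻¹)]
    refine intervalIntegral.integral_mono_on zero_le_one ((cont_I hν).intervalIntegrable 0 1)
      ((i1.const_mul c).add (i2.const_mul c⁻¹)) fun p hp => ?_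
    have := amgm (r := (1 - p) ^ (k + 1) / RR (k + 1) ν p / 2)
      (mul_nonneg (div_pos (one_sub_theta_pos (k := k) hν hp) (sf_pos p)).le
        (pow_nonneg (xf_nonneg (k := k) (ν := ν) hp) (k + 1)))
      (mul_nonneg (mul_nonneg (sf_pos (k := k) (ν := ν) p).le (g1_nonneg (k := k) hν hp))
        (pow_nonneg (yf_pos (k := k) (ν := ν) p).le (k + 1))) hc (by
      have a1 := RR_pos (m := k + 1) hν p
      have a2 := (sf_pos (k := k) (ν := ν) p).ne'
      have a3 := (yf_pos (k := k) (ν := ν) p).ne'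
      rw [one_sub_theta hν hp, xf, div_pow, g1, om]
      field_simp)
    linarith
  unfold VV
  linarith

lemma lint_image_ge {n : ℕ} {f : ℝ → ℝ≥0∞} {u u' r : ℝ → ℝ} (hu : ∀ p, HasDerivAt u (u' p) p)
    (hinj : InjOn u (Ioo 0 1)) (hu' : ∀ p ∈ Icc (0 : ℝ) 1, 0 ≤ u' p)
    (hr : ∀ p ∈ Icc (0 : ℝ) 1, 0 ≤ r p) (c1 : Continuous u') (c2 : Continuous r)
    (h : ∀ p ∈ Ioo (0 : ℝ) 1, kap n * ENNReal.ofReal (r p) ^ n ≤ f (u p)) :
    kap n * ENNReal.ofReal (∫ p in (0 : ℝ)..1, u' p * r p ^ n) ≤ ∫⁻ τ in u '' Ioo 0 1, f τ := by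
  rw [lintegral_image_eq_lintegral_abs_deriv_mul measurableSet_Ioo
    (fun p _ => (hu p).hasDerivWithinAt) hinj, intervalIntegral.integral_of_le zero_le_one,
    integral_Ioc_eq_integral_Ioo, ofReal_integral_eq_lintegral_ofReal,
    ← lintegral_const_mul' _ _ (kap_ne_top n)]
  · refine setLIntegral_mono' measurableSet_Ioo fun p hp => ?_
    have hp' := Ioo_subset_Icc_self hp
    rw [abs_of_nonneg (hu' p hp'), ENNReal.ofReal_mul (hu' p hp'), ENNReal.ofReal_pow (hr p hp'),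
      mul_left_comm]
    exact mul_le_mul_right (h p hp) _
  · exact ((c1.mul (c2.pow n)).integrableOn_Icc).mono_set Ioo_subset_Icc_self
  · exact (ae_restrict_iff' measurableSet_Ioo).2 (Eventually.of_forall fun p hp =>
      mul_nonneg (hu' p (Ioo_subset_Icc_self hp)) (pow_nonneg (hr p (Ioo_subset_Icc_self hp)) _))

/-- a union of cylinders whose polar is the extremal body -/
def LL (k : ℕ) (ν : ℝ) : Set (E (k + 1 + 1)) :=
  {z | ∃ p ∈ Icc (0 : ℝ) 1, |z 0| ≤ sf k ν p ∧ ‖tail z‖ ≤ yf k ν p}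

/-- the extremal body -/
def KK (k : ℕ) (ν : ℝ) : Set (E (k + 1 + 1)) := polarAt (LL k ν) 1

lemma mem_KK (hν : 0 < ν) {p : ℝ} (hp : p ∈ Icc (0 : ℝ) 1) {z : E (k + 1 + 1)}
    (h1 : |z 0| ≤ tf k ν p) (h2 : ‖tail z‖ ≤ xf k ν p) : z ∈ KK k ν := by
  rintro w ⟨q, hq, h3, h4⟩
  rw [← cons_tail z, ← cons_tail w, inner_cons]
  have a1 : w 0 * z 0 ≤ sf k ν q * tf k ν p := by
    refine (le_abs_self _).trans ?_
    rw [abs_mul]
    exact mul_le_mul h3 h1 (abs_nonneg _) (sf_pos q).le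
  have a2 : ⟪tail w, tail z⟫ ≤ yf k ν q * xf k ν p :=
    (real_inner_le_norm _ _).trans (mul_le_mul h4 h2 (norm_nonneg _) (yf_pos q).le)
  linarith [admissible (k := k) hν hp hq]

lemma KK_neg : ∀ z ∈ KK k ν, -z ∈ KK k ν := by
  refine polarAt_neg ?_ 1
  rintro w ⟨q, hq, h3, h4⟩
  exact ⟨q, hq, by simpa using h3, by rwa [tail_neg, norm_neg]⟩

lemma norm_tail_le {n : ℕ} (z : E (n + 1)) : ‖tail z‖ ≤ ‖z‖ := by
  rw [← sq_le_sq₀ (norm_nonneg _) (norm_nonneg _)]
  conv_rhs => rw [← cons_tail z, norm_sq_cons]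
  linarith [sq_nonneg (z 0)]

lemma isBody_KK (hν : 0 < ν) : IsBody (KK k ν) := by
  refine ⟨?_, convex_polarAt _ _, ?_⟩
  · refine (isCompact_closedBall (0 : E (k + 1 + 1)) (sf k ν 0)⁻¹).of_isClosed_subset
      (isClosed_polarAt _ _) fun z hz => ?_
    have h0 := sf_pos (k := k) (ν := ν) 0
    have h1 : sf k ν 0 ≤ 1 := by
      rw [← sf_one (k := k) (ν := ν)]
      exact (strictMono_sf hν).monotoneOn ⟨le_rfl, zero_le_one⟩ ⟨zero_le_one, le_rfl⟩ zero_le_one
    rw [mem_closedBall_zero_iff]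
    by_cases hz0 : z = 0
    · simp [hz0, h0.le]
    have hn : 0 < ‖z‖ := norm_pos_iff.2 hz0
    have h2 : ‖(sf k ν 0 / ‖z‖) • z‖ = sf k ν 0 := by
      rw [norm_smul, Real.norm_of_nonneg (by positivity), div_mul_cancel₀ _ hn.ne']
    have h3 := hz ((sf k ν 0 / ‖z‖) • z) ⟨0, ⟨le_rfl, zero_le_one⟩,
      (PiLp.norm_apply_le _ 0).trans h2.le, by
        rw [yf_zero]; exact (norm_tail_le _).trans (h2.le.trans h1)⟩
    rw [real_inner_smul_left, real_inner_self_eq_norm_sq] at h3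
    rw [le_inv_comm₀ hn h0, ← one_div, le_div_iff₀ hn]
    refine le_trans (le_of_eq ?_) h3
    field_simp
  · have hp : (1 / 2 : ℝ) ∈ Icc (0 : ℝ) 1 := by norm_num
    have h1 : 0 < tf k ν (1 / 2) := div_pos (by norm_num) (sf_pos _)
    have h2 : 0 < xf k ν (1 / 2) := div_pos (by norm_num) (yf_pos _)
    refine ⟨0, mem_interior_iff_mem_nhds.2 (mem_of_superset (closedBall_mem_nhds 0 (lt_min h1 h2))
      fun z hz => ?_)⟩
    rw [mem_closedBall_zero_iff, le_min_iff] at hz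
    exact mem_KK hν hp ((PiLp.norm_apply_le _ 0).trans hz.1) ((norm_tail_le _).trans hz.2)

lemma volume_KK (hν : 0 < ν) :
    2 * (kap (k + 1) * ENNReal.ofReal (AA k ν)) ≤ volume (KK k ν) := by
  rw [volume_eq_two_mul (isBody_KK hν).1.measurableSet KK_neg]
  refine mul_le_mul_right ((lint_image_ge (f := fun t => volume (hs (KK k ν) t)) (deriv_tf hν)
    ((strictMono_tf hν).injOn.mono Ioo_subset_Icc_self)
    (fun p hp => (div_pos (one_sub_theta_pos hν hp) (sf_pos p)).le) (fun p hp => xf_nonneg hp)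
    (cont_tf' hν) (cont_xf hν) fun p hp => ?_).trans (lintegral_mono_set ?_)) _
  · have hp' := Ioo_subset_Icc_self hp
    rw [← volume_closedBall_eq _ (xf_nonneg hp')]
    refine measure_mono fun y hy => mem_KK hν hp' ?_ (mem_closedBall_zero_iff.1 hy)
    exact (abs_of_pos (div_pos hp.1 (sf_pos p))).le
  · rintro _ ⟨p, hp, rfl⟩
    exact div_pos hp.1 (sf_pos p)

lemma volume_tail_KK (hν : 0 < ν) : kap (k + 1) ≤ volume (tail '' KK k ν) := by
  refine measure_mono fun y hy => ⟨cons 0 y, mem_KK hν ⟨le_rfl, zero_le_one⟩ ?_ ?_, rfl⟩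
  · simp [tf]
  · simpa [xf, yf_zero] using hy

lemma volume_polar_KK (hν : 0 < ν) :
    2 * (kap (k + 1) * ENNReal.ofReal (sf k ν 0 + BB k ν)) ≤ volume (polarAt (KK k ν) 1) := by
  have hL : LL k ν ⊆ polarAt (KK k ν) 1 := fun w hw z hz => by
    rw [real_inner_comm]; exact hz w hw
  rw [volume_eq_two_mul (isClosed_polarAt _ _).measurableSet (polarAt_neg KK_neg 1)]
  refine mul_le_mul_right ?_ _
  have h1 := lint_image_ge (f := fun t => volume (hs (polarAt (KK k ν) 1) t)) (deriv_sf hν)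
    ((strictMono_sf hν).injOn.mono Ioo_subset_Icc_self)
    (fun p hp => mul_nonneg (sf_pos p).le (g1_nonneg hν hp)) (fun p _ => (yf_pos p).le)
    ((cont_sf hν).mul (cont_g1 hν)) (cont_yf hν) fun p hp => by
      rw [← volume_closedBall_eq _ (yf_pos p).le]
      exact measure_mono fun y hy => hL ⟨p, Ioo_subset_Icc_self hp, (abs_of_pos (sf_pos p)).le,
        mem_closedBall_zero_iff.1 hy⟩
  have h2 : kap (k + 1) * ENNReal.ofReal (sf k ν 0) ≤
      ∫⁻ t in Ioc 0 (sf k ν 0), volume (hs (polarAt (KK k ν) 1) t) := by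
    have : kap (k + 1) * ENNReal.ofReal (sf k ν 0) = ∫⁻ _ in Ioc 0 (sf k ν 0), kap (k + 1) := by
      simp
    rw [this]
    refine setLIntegral_mono' measurableSet_Ioc fun t ht => measure_mono fun y hy =>
      hL ⟨0, ⟨le_rfl, zero_le_one⟩, (abs_of_pos ht.1).le.trans ht.2, ?_⟩
    simpa [yf_zero] using hy
  rw [ENNReal.ofReal_add (sf_pos 0).le (BB_nonneg hν), mul_add,
    ← Ioc_union_Ioi_eq_Ioi (sf_pos (k := k) (ν := ν) 0).le,
    lintegral_union measurableSet_Ioi Ioc_disjoint_Ioi_same]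
  refine add_le_add h2 (h1.trans (lintegral_mono_set ?_))
  rintro _ ⟨p, hp, rfl⟩
  exact strictMono_sf hν ⟨le_rfl, zero_le_one⟩ (Ioo_subset_Icc_self hp) hp.1

lemma one_mem_KK (hν : 0 < ν) : cons 1 0 ∈ KK k ν :=
  mem_KK hν ⟨zero_le_one, le_rfl⟩ (by simp [tf, sf_one]) (by simp [xf])

theorem ht_lower (hν : 0 < ν) :
    4 * kappa (k + 1) ^ 2 / kappa (k + 1 + 1) * VV (k + 1) ν ^ 2 ≤
      volHT (relBall (KK k ν)) (hull (KK k ν) (cons 2 0)) := by
  have hK := isBody_KK (k := k) hν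
  rw [relBall_eq_self hK.2.1 KK_neg, volHT, div_mul_eq_mul_div, div_mul_eq_mul_div]
  refine div_le_div_of_nonneg_right ?_ (kappa_pos _).le
  have hk := kappa_pos (k + 1)
  have hA := AA_nonneg (k := k) hν
  have hB := add_nonneg (sf_pos (k := k) (ν := ν) 0).le (BB_nonneg (k := k) hν)
  have h1 : 2 * (kappa (k + 1) * (1 + AA k ν)) ≤ vol (hull (KK k ν) (cons 2 0)) := by
    rw [vol, ← ENNReal.ofReal_le_iff_le_toReal (isCompact_hull hK.1 hK.2.1 _).measure_lt_top.ne,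
      volume_hull hK.1 hK.2.1 zero_le_two, ENNReal.ofReal_mul zero_le_two,
      ENNReal.ofReal_mul hk.le, ofReal_kappa, ENNReal.ofReal_add zero_le_one hA,
      ENNReal.ofReal_ofNat, ENNReal.ofReal_one, add_comm 1, mul_add, mul_add, mul_one]
    exact add_le_add (volume_KK hν) (mul_le_mul_right (volume_tail_KK hν) _)
  have h2 : 2 * (kappa (k + 1) * (sf k ν 0 + BB k ν)) ≤ vol (polar (KK k ν)) := by
    have hfin : volume (polarAt (KK k ν) 1) ≠ ⊤ := by
      intro h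
      have := santalo _ _ hK.1 hK.2.1 KK_neg
      have h0 : volume (KK k ν) ≠ 0 := (Measure.measure_pos_of_nonempty_interior _ hK.2.2).ne'
      rw [h, ENNReal.mul_top h0, top_le_iff] at this
      exact ENNReal.pow_ne_top (kap_ne_top _) this
    change _ ≤ (volume (polarAt (KK k ν) 1)).toReal
    rw [← ENNReal.ofReal_le_iff_le_toReal hfin, ENNReal.ofReal_mul zero_le_two,
      ENNReal.ofReal_mul hk.le, ofReal_kappa, ENNReal.ofReal_ofNat]
    exact volume_polar_KK hν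
  calc 4 * kappa (k + 1) ^ 2 * VV (k + 1) ν ^ 2
      ≤ 4 * kappa (k + 1) ^ 2 * ((1 + AA k ν) * (sf k ν 0 + BB k ν)) :=
        mul_le_mul_of_nonneg_left (VV_sq_le hν) (by positivity)
    _ = 2 * (kappa (k + 1) * (sf k ν 0 + BB k ν)) * (2 * (kappa (k + 1) * (1 + AA k ν))) := by ring
    _ ≤ _ := mul_le_mul h2 h1 (by positivity) ENNReal.toReal_nonneg

end Pool.Agent.Lib.MP_ccd96b_co
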