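import Pool.Agent.Lib.MP_ccd96b_co.Defs

/-!
Elementary properties of the profile function.
-/

set_option autoImplicit false

open MeasureTheory Set Filter Topology Real

namespace Pool.Agent.Lib.MP_ccd96b_co

/-- the square root occurring in the profile (made positive on the whole line) -/
noncomputable def RR (m : ℕ) (ν p : ℝ) : ℝ := √(ν ^ 2 + |p * (1 - p) ^ m|)

noncomputable def TT (m : ℕ) (ν : ℝ) : ℝ :=
  ∫ p in (0 : ℝ)..1, (1 - p) ^ m / (RR m ν p * (RR m ν p + ν))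

noncomputable def II (m : ℕ) (ν : ℝ) : ℝ := ∫ p in (0 : ℝ)..1, (1 - p) ^ m / RR m ν p

noncomputable def ZZ (m : ℕ) (ν : ℝ) : ℝ := ∫ p in (0 : ℝ)..1, (1 - p) ^ m / (RR m ν p + ν)

noncomputable def VV (m : ℕ) (ν : ℝ) : ℝ := exp (-(1 / 4) * TT m ν) + (1 / 2) * II m ν

variable {m : ℕ} {ν p : ℝ}

lemma le_RR (_hν : 0 < ν) (p : ℝ) : ν ≤ RR m ν p :=
  Real.le_sqrt_of_sq_le (le_add_of_nonneg_right (abs_nonneg _))

lemma RR_pos (hν : 0 < ν) (p : ℝ) : 0 < RR m ν p := hν.trans_le (le_RR hν p)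

lemma q_nonneg (hp : p ∈ Icc (0 : ℝ) 1) : 0 ≤ p * (1 - p) ^ m :=
  mul_nonneg hp.1 (pow_nonneg (sub_nonneg.2 hp.2) m)

lemma RR_eq (hp : p ∈ Icc (0 : ℝ) 1) : RR m ν p = √(ν ^ 2 + p * (1 - p) ^ m) := by
  rw [RR, abs_of_nonneg (q_nonneg hp)]

lemma RR_sq (hp : p ∈ Icc (0 : ℝ) 1) : RR m ν p ^ 2 = ν ^ 2 + p * (1 - p) ^ m := by
  rw [RR_eq hp, Real.sq_sqrt (add_nonneg (sq_nonneg _) (q_nonneg hp))]

lemma profile_eq (m : ℕ) (ν : ℝ) : profile (m + 1) ν = VV m ν := by
  unfold profile VV TT II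
  simp only [Nat.add_sub_cancel]
  congr 2
  · congr 1
    refine intervalIntegral.integral_congr fun p hp => ?_
    rw [uIcc_of_le zero_le_one] at hp
    simp only [RR_eq hp]
  · refine intervalIntegral.integral_congr fun p hp => ?_
    rw [uIcc_of_le zero_le_one] at hp
    simp only [RR_eq hp]

lemma continuous_RR (m : ℕ) : Continuous fun x : ℝ × ℝ => RR m x.1 x.2 := by
  unfold RR; fun_prop

lemma continuous_RR' (m : ℕ) (ν : ℝ) : Continuous (RR m ν) := by
  unfold RR; fun_prop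

lemma cont_T (hν : 0 < ν) : Continuous fun p => (1 - p) ^ m / (RR m ν p * (RR m ν p + ν)) :=
  Continuous.div (by fun_prop) ((continuous_RR' m ν).mul ((continuous_RR' m ν).add
    continuous_const)) fun p => (mul_pos (RR_pos hν p) (add_pos (RR_pos hν p) hν)).ne'

lemma cont_I (hν : 0 < ν) : Continuous fun p => (1 - p) ^ m / RR m ν p :=
  Continuous.div (by fun_prop) (continuous_RR' m ν) fun p => (RR_pos hν p).ne'

lemma cont_Z (hν : 0 < ν) : Continuous fun p => (1 - p) ^ m / (RR m ν p + ν) :=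
  Continuous.div (by fun_prop) ((continuous_RR' m ν).add continuous_const)
    fun p => (add_pos (RR_pos hν p) hν).ne'

lemma ZZ_add (hν : 0 < ν) : ZZ m ν + ν * TT m ν = II m ν := by
  rw [ZZ, TT, II, ← intervalIntegral.integral_const_mul, ← intervalIntegral.integral_add
    ((cont_Z hν).intervalIntegrable _ _)
    (((cont_T hν).intervalIntegrable _ _).const_mul ν)]
  refine intervalIntegral.integral_congr fun p _ => ?_
  have h1 := RR_pos (m := m) hν p
  have h2 := add_pos h1 hν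
  field_simp

lemma continuousOn_TT (m : ℕ) : ContinuousOn (TT m) (Ioi 0) := by
  rw [continuousOn_iff_continuous_domRestrict]
  refine intervalIntegral.continuous_parametric_intervalIntegral_of_continuous'
    (f := fun (ν : Ioi (0 : ℝ)) p => (1 - p) ^ m / (RR m ν p * (RR m ν p + ν))) ?_ 0 1
  have h : Continuous fun x : Ioi (0 : ℝ) × ℝ => RR m x.1 x.2 :=
    (continuous_RR m).comp (f := fun x : Ioi (0 : ℝ) × ℝ => ((x.1 : ℝ), x.2)) (by fun_prop)
  exact Continuous.div (by fun_prop) (h.mul (h.add (by fun_prop)))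
    fun x => (mul_pos (RR_pos x.1.2 _) (add_pos (RR_pos x.1.2 _) x.1.2)).ne'

lemma continuousOn_II (m : ℕ) : ContinuousOn (II m) (Ioi 0) := by
  rw [continuousOn_iff_continuous_domRestrict]
  refine intervalIntegral.continuous_parametric_intervalIntegral_of_continuous'
    (f := fun (ν : Ioi (0 : ℝ)) p => (1 - p) ^ m / RR m ν p) ?_ 0 1
  have h : Continuous fun x : Ioi (0 : ℝ) × ℝ => RR m x.1 x.2 :=
    (continuous_RR m).comp (f := fun x : Ioi (0 : ℝ) × ℝ => ((x.1 : ℝ), x.2)) (by fun_prop)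
  exact Continuous.div (by fun_prop) h fun x => (RR_pos x.1.2 _).ne'

lemma continuousOn_VV (m : ℕ) : ContinuousOn (VV m) (Ioi 0) :=
  ((continuousOn_const.mul (continuousOn_TT m)).rexp).add
    (continuousOn_const.mul (continuousOn_II m))

lemma w_mem (hp : p ∈ Icc (0 : ℝ) 1) : 0 ≤ (1 - p) ^ m ∧ (1 - p) ^ m ≤ 1 :=
  ⟨pow_nonneg (sub_nonneg.2 hp.2) m, pow_le_one₀ (sub_nonneg.2 hp.2) (by linarith [hp.1])⟩

lemma TT_nonneg (hν : 0 < ν) : 0 ≤ TT m ν :=
  intervalIntegral.integral_nonneg zero_le_one fun p hp =>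
    div_nonneg (w_mem hp).1 (mul_pos (RR_pos hν p) (add_pos (RR_pos hν p) hν)).le

lemma II_nonneg (hν : 0 < ν) : 0 ≤ II m ν :=
  intervalIntegral.integral_nonneg zero_le_one fun p hp =>
    div_nonneg (w_mem hp).1 (RR_pos hν p).le

lemma VV_pos (hν : 0 < ν) : 0 < VV m ν :=
  add_pos_of_pos_of_nonneg (exp_pos _) (mul_nonneg (by norm_num) (II_nonneg hν))

lemma TT_le (hν : 0 < ν) : TT m ν ≤ 1 / (2 * ν ^ 2) := by
  have := intervalIntegral.integral_mono_on (μ := volume) zero_le_one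
    ((cont_T (m := m) hν).intervalIntegrable 0 1)
    (g := fun _ => 1 / (2 * ν ^ 2)) intervalIntegrable_const fun p hp => by
      have h1 := le_RR (m := m) hν p
      refine div_le_div₀ zero_le_one (w_mem hp).2 (by positivity) ?_
      nlinarith
  simpa [TT] using this

lemma II_le (hν : 0 < ν) : II m ν ≤ 1 / ν := by
  have := intervalIntegral.integral_mono_on (μ := volume) zero_le_one
    ((cont_I (m := m) hν).intervalIntegrable 0 1)
    (g := fun _ => 1 / ν) intervalIntegrable_const fun p hp =>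
      div_le_div₀ zero_le_one (w_mem hp).2 hν (le_RR hν p)
  simpa [II] using this

lemma II_le_two (hν : 0 < ν) : II m ν ≤ 2 := by
  have hc : ContinuousOn (fun p : ℝ => 1 / √(ν ^ 2 + p)) (uIcc 0 1) := by
    refine ContinuousOn.div continuousOn_const (by fun_prop) fun p hp => ?_
    rw [uIcc_of_le zero_le_one] at hp
    exact (Real.sqrt_pos.2 (by linarith [hp.1, sq_pos_of_pos hν])).ne'
  have h1 := intervalIntegral.integral_mono_on (μ := volume) zero_le_one
    ((cont_I (m := m) hν).intervalIntegrable 0 1) hc.intervalIntegrable fun p hp => by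
      have h0 : 0 < ν ^ 2 + p := by linarith [hp.1, sq_pos_of_pos hν]
      rw [div_le_div_iff₀ (RR_pos hν p) (Real.sqrt_pos.2 h0), one_mul,
        ← sq_le_sq₀ (mul_nonneg (w_mem hp).1 (Real.sqrt_nonneg _)) (RR_pos hν p).le, RR_sq hp,
        mul_pow, Real.sq_sqrt h0.le]
      have a1 := (w_mem (m := m) hp).1
      have a2 := (w_mem (m := m) hp).2
      generalize (1 - p) ^ m = w at a1 a2
      have a3 : w ^ 2 ≤ w := by nlinarith
      nlinarith [hp.1, sq_nonneg ν, mul_le_mul_of_nonneg_right a3 hp.1,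
        mul_le_mul_of_nonneg_right (a3.trans a2) (sq_nonneg ν)]
  have h2 : ∫ p in (0 : ℝ)..1, 1 / √(ν ^ 2 + p) = 2 * √(ν ^ 2 + 1) - 2 * √(ν ^ 2 + 0) := by
    refine intervalIntegral.integral_eq_sub_of_hasDerivAt (f := fun p => 2 * √(ν ^ 2 + p))
      (fun p hp => ?_) hc.intervalIntegrable
    rw [uIcc_of_le zero_le_one] at hp
    have h0 : ν ^ 2 + p ≠ 0 := by linarith [hp.1, sq_pos_of_pos hν]
    have := (((hasDerivAt_id' p).const_add (ν ^ 2)).sqrt h0).const_mul 2
    refine this.congr_deriv ?_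
    field_simp
  rw [h2, add_zero, Real.sqrt_sq hν.le] at h1
  have h3 : √(ν ^ 2 + 1) ≤ ν + 1 := Real.sqrt_le_iff.2 ⟨by linarith, by nlinarith⟩
  unfold II
  linarith

lemma le_II (hν : 1 ≤ ν) : 1 / (2 * ν * (m + 1)) ≤ II m ν := by
  have h0 : 0 < ν := by linarith
  have h1 := intervalIntegral.integral_mono_on (μ := volume) zero_le_one
    (f := fun p => (1 - p) ^ m / (2 * ν)) (Continuous.intervalIntegrable (by fun_prop) 0 1)
    ((cont_I (m := m) h0).intervalIntegrable 0 1) fun p hp => by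
      refine div_le_div_of_nonneg_left (w_mem hp).1 (RR_pos h0 p) ?_
      rw [← sq_le_sq₀ (RR_pos h0 p).le (by linarith), RR_sq hp]
      have a1 := (w_mem (m := m) hp).1
      have a2 := (w_mem (m := m) hp).2
      nlinarith [hp.1, hp.2]
  rw [intervalIntegral.integral_div, intervalIntegral.integral_comp_sub_left (fun x => x ^ m)] at h1
  simp only [sub_self, sub_zero, integral_pow, one_pow, ne_eq, Nat.add_eq_zero_iff, one_ne_zero,
    and_false, not_false_eq_true, zero_pow] at h1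
  refine le_trans (le_of_eq ?_) h1
  field_simp

lemma le_TT (hν : 0 < ν) : (1 / 2) ^ (m + 1) * log (1 / (2 * ν ^ 2)) ≤ TT m ν := by
  have h0 : 0 < ν ^ 2 := sq_pos_of_pos hν
  have hc : ContinuousOn (fun p : ℝ => (1 / 2 : ℝ) ^ (m + 1) * (ν ^ 2 + p)⁻¹) (uIcc 0 (1 / 2)) := by
    refine continuousOn_const.mul (ContinuousOn.inv₀ (by fun_prop) fun p hp => ?_)
    rw [uIcc_of_le (by norm_num)] at hp
    linarith [hp.1]
  have h1 := intervalIntegral.integral_mono_on (μ := volume) (by norm_num : (0 : ℝ) ≤ 1 / 2)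
    hc.intervalIntegrable ((cont_T (m := m) hν).intervalIntegrable 0 (1 / 2)) fun p hp => by
      have hp' : p ∈ Icc (0 : ℝ) 1 := ⟨hp.1, by linarith [hp.2]⟩
      have a1 : (1 / 2 : ℝ) ^ m ≤ (1 - p) ^ m := pow_le_pow_left₀ (by norm_num) (by linarith [hp.2]) m
      have a2 := RR_sq (m := m) (ν := ν) hp'
      have a3 := le_RR (m := m) hν p
      have a4 : p * (1 - p) ^ m ≤ p := mul_le_of_le_one_right hp.1 (w_mem hp').2
      have e : (1 / 2 : ℝ) ^ (m + 1) * (ν ^ 2 + p)⁻¹ = (1 / 2) ^ m / (2 * (ν ^ 2 + p)) := by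
        have : ν ^ 2 + p ≠ 0 := by linarith [hp.1]
        rw [pow_succ]; field_simp
      rw [e]
      refine div_le_div₀ (w_mem hp').1 a1
        (mul_pos (RR_pos hν p) (add_pos (RR_pos hν p) hν)) ?_
      nlinarith
  have h2 := intervalIntegral.integral_mono_interval (μ := volume) (c := 0) (d := 1) le_rfl
    (by norm_num : (0 : ℝ) ≤ 1 / 2) (by norm_num)
    ((ae_restrict_iff' measurableSet_Ioc).2 (Eventually.of_forall fun p hp =>
      div_nonneg (w_mem (Ioc_subset_Icc_self hp)).1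
        (mul_pos (RR_pos hν p) (add_pos (RR_pos hν p) hν)).le))
    ((cont_T (m := m) hν).intervalIntegrable 0 1)
  rw [intervalIntegral.integral_const_mul,
    intervalIntegral.integral_comp_add_left (fun x => x⁻¹), integral_inv_of_pos (by linarith)
    (by linarith)] at h1
  refine le_trans (mul_le_mul_of_nonneg_left (Real.log_le_log (by positivity) ?_) (by positivity))
    (h1.trans h2)
  rw [div_le_div_iff₀ (by positivity) (by linarith)]
  nlinarith

lemma exists_small (m : ℕ) {δ : ℝ} (hδ : 0 < δ) :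
    ∃ ε, 0 < ε ∧ ε ≤ 1 ∧ ∀ ν, 0 < ν → ν ≤ ε → exp (-(1 / 4) * TT m ν) ≤ δ := by
  let M : ℝ := 2 ^ (m + 1) * (4 * |log δ|)
  refine ⟨min 1 (exp (-M) / 2), lt_min one_pos (by positivity), min_le_left _ _,
    fun ν hν hνε => ?_⟩
  have h1 : ν ≤ 1 := hνε.trans (min_le_left _ _)
  have h2 : ν ≤ exp (-M) / 2 := hνε.trans (min_le_right _ _)
  have h3 : M ≤ log (1 / (2 * ν ^ 2)) := by
    rw [Real.le_log_iff_exp_le (by positivity), le_div_iff₀ (by positivity)]
    have : 2 * ν ^ 2 ≤ exp (-M) := by nlinarith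
    calc exp M * (2 * ν ^ 2) ≤ exp M * exp (-M) := mul_le_mul_of_nonneg_left this (exp_pos _).le
      _ = 1 := by rw [← Real.exp_add]; simp
  have h4 := le_TT (m := m) hν
  have h5 : 4 * |log δ| ≤ TT m ν := by
    refine le_trans (le_of_eq ?_) ((mul_le_mul_of_nonneg_left h3 (by positivity)).trans h4)
    simp only [M]
    rw [← mul_assoc, ← mul_pow]; norm_num
  rw [← Real.le_log_iff_exp_le hδ]
  linarith [neg_abs_le (log δ)]

theorem exists_max (m : ℕ) : ∃ ν, 0 < ν ∧ ∀ ν', 0 < ν' → VV m ν' ≤ VV m ν := by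
  set N : ℝ := m + 1 with hN
  have hN1 : 1 ≤ N := by rw [hN]; linarith [Nat.cast_nonneg (α := ℝ) m]
  have hN0 : 0 < N := by linarith
  have hδ : 0 < 1 / (8 * N ^ 2) := by positivity
  have h0 : 1 + 1 / (8 * N ^ 2) ≤ VV m N := by
    have a1 := TT_le (m := m) hN0
    have a2 := le_II (m := m) hN1
    have a3 := Real.add_one_le_exp (-(1 / 4) * TT m N)
    rw [← hN] at a2
    have e1 : 1 / (2 * N ^ 2) = 4 * (1 / (8 * N ^ 2)) := by field_simp; ring
    have e2 : 1 / (2 * N * N) = 4 * (1 / (8 * N ^ 2)) := by field_simp; ring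
    rw [e1] at a1
    rw [e2] at a2
    unfold VV
    linarith
  obtain ⟨ε, hε, hε1, hsmall⟩ := exists_small m hδ
  have hsub : Icc ε (4 * N ^ 2) ⊆ Ioi 0 := fun x hx => hε.trans_le hx.1
  have hmem : N ∈ Icc ε (4 * N ^ 2) := ⟨by linarith, by nlinarith⟩
  obtain ⟨ν, hν, hmax⟩ := isCompact_Icc.exists_isMaxOn ⟨N, hmem⟩ ((continuousOn_VV m).mono hsub)
  refine ⟨ν, hsub hν, fun ν' hν' => ?_⟩
  have h1 : VV m N ≤ VV m ν := hmax hmem
  by_cases c1 : ν' ≤ ε
  · have a1 := hsmall ν' hν' c1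
    have a2 := II_le_two (m := m) hν'
    unfold VV at *
    linarith
  by_cases c2 : ν' ≤ 4 * N ^ 2
  · exact hmax ⟨(not_le.1 c1).le, c2⟩
  · have a1 : exp (-(1 / 4) * TT m ν') ≤ 1 :=
      Real.exp_le_one_iff.2 (by linarith [TT_nonneg (m := m) hν'])
    have a2 := II_le (m := m) hν'
    have a3 : 1 / ν' ≤ 1 / (4 * N ^ 2) := one_div_le_one_div_of_le (by positivity) (not_le.1 c2).le
    have e1 : 1 / (4 * N ^ 2) = 2 * (1 / (8 * N ^ 2)) := by field_simp; ring
    rw [e1] at a3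
    have : VV m ν' = exp (-(1 / 4) * TT m ν') + (1 / 2) * II m ν' := rfl
    linarith

lemma exists_balance (m : ℕ) {F G a : ℝ} (hF : 0 < F) (hG : 0 < G) (ha : 0 < a) :
    ∃ ν, 0 < ν ∧ G / (√(ν ^ 2 + F * G) + ν) * a = exp (-(1 / 4) * TT m ν) := by
  have hden : ∀ ν : ℝ, 0 < ν → 0 < √(ν ^ 2 + F * G) + ν := fun ν hν => by positivity
  have hc : ContinuousOn (fun ν => G / (√(ν ^ 2 + F * G) + ν) * a) (Ioi 0) :=
    (ContinuousOn.div continuousOn_const (by fun_prop) fun ν hν => (hden ν hν).ne').mul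
      continuousOn_const
  obtain ⟨ε, hε, hε1, hsmall⟩ := exists_small m
    (show 0 < G / (√(1 ^ 2 + F * G) + 1) * a by positivity)
  have hN : 0 < 2 * G * a + 1 := by positivity
  refine isPreconnected_Ioi.intermediate_value₂ (a := 2 * G * a + 1) (b := ε) hN hε hc
    (continuousOn_const.mul (continuousOn_TT m)).rexp ?_ ?_
  · have a1 := TT_le (m := m) hN
    have a2 : 1 / (2 * (2 * G * a + 1) ^ 2) ≤ 1 / 2 :=
      one_div_le_one_div_of_le (by norm_num) (by nlinarith [mul_pos hG ha])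
    have a3 := Real.add_one_le_exp (-(1 / 4) * TT m (2 * G * a + 1))
    have a4 : G / (√((2 * G * a + 1) ^ 2 + F * G) + (2 * G * a + 1)) * a ≤ 1 / 2 := by
      rw [div_mul_eq_mul_div, div_le_iff₀ (hden _ hN)]
      nlinarith [Real.sqrt_nonneg ((2 * G * a + 1) ^ 2 + F * G)]
    linarith
  · refine (hsmall ε hε le_rfl).trans (mul_le_mul_of_nonneg_right ?_ ha.le)
    refine div_le_div_of_nonneg_left hG.le (hden ε hε) (add_le_add (Real.sqrt_le_sqrt ?_) hε1)
    nlinarith

end Pool.Agent.Lib.MP_ccd96b_co
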