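import Pool.Agent.Shared.BM.Macbeath
import Pool.Agent.Lib.MP_ccd96b_co.Defs
import Pool.Agent.Lib.MP_ccd96b_co.Profile

-- part Pool.Agent.Lib.MP_ccd96b_co.Hull
section

/-!
The convex hull of two translates, its volume, and basic facts on the relative unit ball.
-/

set_option autoImplicit false

open MeasureTheory Set ENNReal Metric Filter Topology
open scoped RealInnerProductSpace Pointwise

namespace Pool.Agent.Lib.MP_ccd96b_co

open Pool.Agent.Shared.BM

variable {n : ℕ}

/-- the convex hull of `K` and its translate by `p` -/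
def hull (K : Set (E n)) (p : E n) : Set (E n) := convexHull ℝ (K ∪ (p +ᵥ K))

lemma mem_hull {K : Set (E n)} (hK : Convex ℝ K) {p z : E n} :
    z ∈ hull K p ↔ ∃ x ∈ K, ∃ τ : ℝ, 0 ≤ τ ∧ τ ≤ 1 ∧ z = x + τ • p := by
  constructor
  · intro hz
    refine convexHull_min (t := {z | ∃ x ∈ K, ∃ τ : ℝ, 0 ≤ τ ∧ τ ≤ 1 ∧ z = x + τ • p}) ?_ ?_ hz
    · rintro w (hw | ⟨x, hx, rfl⟩)
      · exact ⟨w, hw, 0, le_rfl, zero_le_one, by simp⟩
      · exact ⟨x, hx, 1, zero_le_one, le_rfl, by simp [add_comm]⟩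
    · rintro _ ⟨x, hx, τ, h0, h1, rfl⟩ _ ⟨y, hy, σ, h2, h3, rfl⟩ a b ha hb hab
      refine ⟨_, hK hx hy ha hb hab, a * τ + b * σ, by positivity, by nlinarith, ?_⟩
      module
  · rintro ⟨x, hx, τ, h0, h1, rfl⟩
    have h2 : x ∈ hull K p := subset_convexHull ℝ _ (Or.inl hx)
    have h3 : p + x ∈ hull K p := subset_convexHull ℝ _ (Or.inr ⟨x, hx, rfl⟩)
    have := convex_convexHull ℝ _ h2 h3 (sub_nonneg.2 h1) h0 (by ring)
    have e : x + τ • p = (1 - τ) • x + τ • (p + x) := by module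
    rw [e]
    exact this

lemma isCompact_hull {K : Set (E n)} (hK : IsCompact K) (hc : Convex ℝ K) (p : E n) :
    IsCompact (hull K p) := by
  have h1 : Continuous fun q : E n × ℝ => q.1 + q.2 • p := by fun_prop
  convert (hK.prod (isCompact_Icc (a := (0 : ℝ)) (b := 1))).image h1 using 1
  ext z
  rw [mem_hull hc]
  constructor
  · rintro ⟨x, hx, τ, h0, h1, rfl⟩
    exact ⟨(x, τ), ⟨hx, h0, h1⟩, rfl⟩
  · rintro ⟨⟨x, τ⟩, ⟨hx, h0, h1⟩, rfl⟩
    exact ⟨x, hx, τ, h0, h1, rfl⟩

lemma volume_hull {K : Set (E (n + 1))} (hK : IsCompact K) (hc : Convex ℝ K) {h : ℝ}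
    (h0 : 0 ≤ h) :
    volume (hull K (cons h 0)) = volume K + ENNReal.ofReal h * volume (tail '' K) := by
  have hT : MeasurableSet (tail '' K) := (hK.image continuous_tail).measurableSet
  rw [volume_eq_vs hK.measurableSet, volume_eq_vs (isCompact_hull hK hc _).measurableSet,
    ← lintegral_indicator_const hT, ← lintegral_add_left (measurable_vs hK.measurableSet)]
  refine lintegral_congr fun y => ?_
  have key : ∀ t, t ∈ vs (hull K (cons h 0)) y ↔ ∃ a ∈ vs K y, ∃ τ : ℝ, 0 ≤ τ ∧ τ ≤ 1 ∧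
      t = a + τ * h := by
    intro t
    change cons t y ∈ hull K (cons h 0) ↔ _
    rw [mem_hull hc]
    constructor
    · rintro ⟨x, hx, τ, h1, h2, h3⟩
      rw [← cons_tail x, smul_cons, cons_add, smul_zero, add_zero] at h3
      have h4 : y = tail x := by simpa using congrArg tail h3
      refine ⟨x 0, ?_, τ, h1, h2, by simpa using congrArg (fun z : E (n + 1) => z 0) h3⟩
      change cons (x 0) y ∈ K
      rw [h4]; simpa using hx
    · rintro ⟨a, ha, τ, h1, h2, rfl⟩
      exact ⟨_, ha, τ, h1, h2, by rw [smul_cons, cons_add, smul_zero, add_zero]⟩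
  rcases vs_cases hK hc y with hy | ⟨α, β, hαβ, hy⟩
  · have e1 : vs (hull K (cons h 0)) y = ∅ := by
      ext t; simp [key, hy]
    have e2 : y ∉ tail '' K := by
      rintro ⟨x, hx, rfl⟩
      have : x 0 ∈ vs K (tail x) := by simpa [vs] using hx
      simp [hy] at this
    simp [e1, hy, indicator_of_notMem e2]
  · have e1 : vs (hull K (cons h 0)) y = Icc α (β + h) := by
      ext t
      rw [key, hy]
      constructor
      · rintro ⟨a, ha, τ, h1, h2, rfl⟩
        exact ⟨by nlinarith [ha.1], by nlinarith [ha.2]⟩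
      · rintro ⟨h1, h2⟩
        by_cases h3 : t ≤ β
        · exact ⟨t, ⟨h1, h3⟩, 0, le_rfl, zero_le_one, by simp⟩
        · have h4 : 0 < h := by linarith
          refine ⟨β, ⟨hαβ, le_rfl⟩, (t - β) / h, div_nonneg (by linarith) h0,
            (div_le_one h4).2 (by linarith), by field_simp; ring⟩
    have e2 : y ∈ tail '' K := by
      have : α ∈ vs K y := by rw [hy]; exact ⟨le_rfl, hαβ⟩
      exact ⟨_, this, rfl⟩
    rw [e1, hy, indicator_of_mem e2, Real.volume_Icc, Real.volume_Icc,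
      ← ENNReal.ofReal_add (by linarith) h0]
    congr 1; ring

lemma image_hull (T : E n →ₗ[ℝ] E n) {K : Set (E n)} (hc : Convex ℝ K) (p : E n) :
    T '' hull K p = hull (T '' K) (T p) := by
  ext z
  rw [mem_hull (hc.linear_image T)]
  constructor
  · rintro ⟨w, hw, rfl⟩
    obtain ⟨x, hx, τ, h0, h1, rfl⟩ := (mem_hull hc).1 hw
    exact ⟨_, ⟨x, hx, rfl⟩, τ, h0, h1, by simp⟩
  · rintro ⟨_, ⟨x, hx, rfl⟩, τ, h0, h1, rfl⟩
    exact ⟨_, (mem_hull hc).2 ⟨x, hx, τ, h0, h1, rfl⟩, by simp⟩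

lemma mem_relBall {K : Set (E n)} {z : E n} :
    z ∈ relBall K ↔ ∃ a ∈ K, ∃ b ∈ K, z = (1 / 2 : ℝ) • (a - b) := by
  constructor
  · rintro ⟨_, ⟨a, ha, b, hb, rfl⟩, rfl⟩
    exact ⟨a, ha, b, hb, rfl⟩
  · rintro ⟨a, ha, b, hb, rfl⟩
    exact ⟨_, ⟨a, ha, b, hb, rfl⟩, rfl⟩

lemma isCompact_relBall {K : Set (E n)} (hK : IsCompact K) : IsCompact (relBall K) := by
  have h1 : Continuous fun q : E n × E n => (1 / 2 : ℝ) • (q.1 - q.2) := by fun_prop
  convert (hK.prod hK).image h1 using 1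
  ext z
  rw [mem_relBall]
  constructor
  · rintro ⟨a, ha, b, hb, rfl⟩
    exact ⟨(a, b), ⟨ha, hb⟩, rfl⟩
  · rintro ⟨⟨a, b⟩, ⟨ha, hb⟩, rfl⟩
    exact ⟨a, ha, b, hb, rfl⟩

lemma convex_relBall {K : Set (E n)} (hK : Convex ℝ K) : Convex ℝ (relBall K) :=
  (hK.sub hK).smul _

lemma relBall_neg {K : Set (E n)} : ∀ z ∈ relBall K, -z ∈ relBall K := by
  intro z hz
  obtain ⟨a, ha, b, hb, rfl⟩ := mem_relBall.1 hz
  exact mem_relBall.2 ⟨b, hb, a, ha, by module⟩

lemma relBall_eq_self {K : Set (E n)} (hK : Convex ℝ K) (hs : ∀ x ∈ K, -x ∈ K) :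
    relBall K = K := by
  ext z
  rw [mem_relBall]
  constructor
  · rintro ⟨a, ha, b, hb, rfl⟩
    have := hK ha (hs b hb) (a := 1 / 2) (b := 1 / 2) (by norm_num) (by norm_num) (by norm_num)
    convert this using 1
    module
  · intro hz
    exact ⟨z, hz, -z, hs z hz, by module⟩

lemma relBall_image {m : ℕ} (T : E n →ₗ[ℝ] E m) (K : Set (E n)) :
    relBall (T '' K) = T '' relBall K := by
  ext z
  constructor
  · intro hz
    obtain ⟨_, ⟨a, ha, rfl⟩, _, ⟨b, hb, rfl⟩, rfl⟩ := mem_relBall.1 hz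
    exact ⟨_, mem_relBall.2 ⟨a, ha, b, hb, rfl⟩, by simp⟩
  · rintro ⟨w, hw, rfl⟩
    obtain ⟨a, ha, b, hb, rfl⟩ := mem_relBall.1 hw
    exact mem_relBall.2 ⟨_, ⟨a, ha, rfl⟩, _, ⟨b, hb, rfl⟩, by simp⟩

lemma volume_le_relBall {K : Set (E n)} (hK : IsCompact K) : volume K ≤ volume (relBall K) :=
  vol_le_of_half_diff hK.measurableSet (isCompact_relBall hK).measurableSet
    fun x hx y hy => mem_relBall.2 ⟨x, hx, y, hy, rfl⟩

lemma zero_mem_interior_relBall {K : Set (E n)} (hK : (interior K).Nonempty) :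
    ∃ r : ℝ, 0 < r ∧ closedBall (0 : E n) r ⊆ relBall K := by
  obtain ⟨x, hx⟩ := hK
  obtain ⟨ε, hε, h⟩ := Metric.nhds_basis_closedBall.mem_iff.1 (mem_interior_iff_mem_nhds.1 hx)
  refine ⟨ε, hε, fun z hz => mem_relBall.2 ⟨x + z, h ?_, x - z, h ?_, by module⟩⟩
  · simpa using hz
  · simpa using hz

lemma half_mem_relBall {K : Set (E n)} {p : E n} (h : ((p +ᵥ K) ∩ K).Nonempty) :
    (1 / 2 : ℝ) • p ∈ relBall K := by
  obtain ⟨_, ⟨b, hb, rfl⟩, ha⟩ := h
  exact mem_relBall.2 ⟨_, ha, b, hb, by simp⟩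

/-- the coordinate projection as a linear map -/
def tailL (n : ℕ) : E (n + 1) →ₗ[ℝ] E n where
  toFun := tail
  map_add' := tail_add
  map_smul' := tail_smul

lemma kappa_eq (n : ℕ) : kappa n = (kap n).toReal := rfl

lemma kappa_pos (n : ℕ) : 0 < kappa n := ENNReal.toReal_pos (kap_ne_zero n) (kap_ne_top n)

lemma ofReal_kappa (n : ℕ) : ENNReal.ofReal (kappa n) = kap n :=
  ENNReal.ofReal_toReal (kap_ne_top n)

lemma cTr_le {μ : Set (E n) → Set (E n) → ℝ} {K : Set (E n)} (hK : IsBody K) {c : ℝ}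
    (h : ∀ p : E n, ((p +ᵥ K) ∩ K).Nonempty → μ (relBall K) (hull K p) ≤ c) : cTr μ K ≤ c := by
  refine csSup_le ⟨_, 0, ?_, rfl⟩ ?_
  · simpa using hK.2.2.mono interior_subset
  · rintro _ ⟨p, hp, rfl⟩
    exact h p hp

lemma le_cTr {μ : Set (E n) → Set (E n) → ℝ} {K : Set (E n)} {c : ℝ}
    (h : ∀ p : E n, ((p +ᵥ K) ∩ K).Nonempty → μ (relBall K) (hull K p) ≤ c) {p : E n}
    (hp : ((p +ᵥ K) ∩ K).Nonempty) : μ (relBall K) (hull K p) ≤ cTr μ K := by
  refine le_csSup ⟨c, ?_⟩ ⟨p, hp, rfl⟩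
  rintro _ ⟨p, hp, rfl⟩
  exact h p hp

end Pool.Agent.Lib.MP_ccd96b_co
end

-- part Pool.Agent.Lib.MP_ccd96b_co.Mass
section

/-!
The case of Gromov's mass.
-/

set_option autoImplicit false

open MeasureTheory Set ENNReal Metric Filter Topology
open scoped RealInnerProductSpace Pointwise

namespace Pool.Agent.Lib.MP_ccd96b_co

open Pool.Agent.Shared.BM

variable {n : ℕ}

/-- the linear map sending the standard basis to `v` -/
noncomputable def comb (v : Fin n → E n) : E n →ₗ[ℝ] E n :=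
  (EuclideanSpace.basisFun (Fin n) ℝ).toBasis.constr ℝ v

lemma comb_apply (v : Fin n → E n) (t : E n) : comb v t = ∑ i, t i • v i := by
  simp [comb, Module.Basis.constr_apply_fintype]

lemma det_comb (v : Fin n → E n) : LinearMap.det (comb v) = detv v := by
  have h := (EuclideanSpace.basisFun (Fin n) ℝ).toBasis.det_comp (comb v)
    (EuclideanSpace.basisFun (Fin n) ℝ).toBasis
  rw [Module.Basis.det_self, mul_one] at h
  rw [← h, detv_eq]
  congr 1
  ext1 i
  exact Module.Basis.constr_basis _ _ _ i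

lemma volume_comb (v : Fin n → E n) (A : Set (E n)) :
    volume (comb v '' A) = ENNReal.ofReal |detv v| * volume A := by
  rw [Measure.addHaar_image_linearMap, det_comb]

lemma volume_add_comb (c : E n) (v : Fin n → E n) (A : Set (E n)) :
    volume ((fun t => c + comb v t) '' A) = ENNReal.ofReal |detv v| * volume A := by
  rw [← volume_comb, ← image_image (fun x => c + x) (comb v), image_add_left, measure_preimage_add]

lemma crossPolytope_eq (c : E (n + 1)) (v : Fin (n + 1) → E (n + 1)) :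
    crossPolytope c v = (fun t => c + comb v t) '' {t | ∑ i, |t i| ≤ 1} := by
  apply Subset.antisymm
  · refine convexHull_min ?_ ?_
    · rintro _ (⟨i, rfl⟩ | ⟨i, rfl⟩)
      · refine ⟨EuclideanSpace.single i 1, ?_, ?_⟩
        · simp [PiLp.single_apply, apply_ite]
        · simp [comb_apply, PiLp.single_apply]
      · refine ⟨-EuclideanSpace.single i 1, ?_, ?_⟩
        · simp [PiLp.single_apply, apply_ite]
        · simp [comb_apply, PiLp.single_apply, sub_eq_add_neg]
    · rintro _ ⟨x, hx, rfl⟩ _ ⟨y, hy, rfl⟩ a b ha hb hab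
      refine ⟨a • x + b • y, ?_, ?_⟩
      · simp only [mem_ofPred_eq] at hx hy ⊢
        calc ∑ i, |(a • x + b • y) i| ≤ ∑ i, (a * |x i| + b * |y i|) := by
              refine Finset.sum_le_sum fun i _ => ?_
              simp only [PiLp.add_apply, PiLp.smul_apply, smul_eq_mul]
              refine (abs_add_le _ _).trans ?_
              rw [abs_mul, abs_mul, abs_of_nonneg ha, abs_of_nonneg hb]
          _ = a * ∑ i, |x i| + b * ∑ i, |y i| := by
              rw [Finset.sum_add_distrib, Finset.mul_sum, Finset.mul_sum]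
          _ ≤ 1 := by nlinarith
      · have : c = (a + b) • c := by rw [hab, one_smul]
        simp only [map_add, map_smul]
        conv_lhs => rw [this]
        module
  · rintro _ ⟨t, ht, rfl⟩
    have hc : Convex ℝ (crossPolytope c v) := convex_convexHull ℝ _
    have h1 : ∀ i, c + v i ∈ crossPolytope c v := fun i =>
      subset_convexHull ℝ _ (Or.inl ⟨i, rfl⟩)
    have h2 : ∀ i, c - v i ∈ crossPolytope c v := fun i =>
      subset_convexHull ℝ _ (Or.inr ⟨i, rfl⟩)
    have h3 : c ∈ crossPolytope c v := by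
      have := hc (h1 0) (h2 0) (a := 1 / 2) (b := 1 / 2) (by norm_num) (by norm_num) (by norm_num)
      have e : c = (1 / 2 : ℝ) • (c + v 0) + (1 / 2 : ℝ) • (c - v 0) := by module
      rwa [← e] at this
    have := hc.sum_mem (t := Finset.univ)
      (w := fun o : Option (Fin (n + 1)) => o.elim (1 - ∑ i, |t i|) fun i => |t i|)
      (z := fun o => o.elim c fun i => if 0 ≤ t i then c + v i else c - v i)
      (fun o _ => by
        cases o with
        | none => exact sub_nonneg.2 ht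
        | some i => exact abs_nonneg _)
      (by simp [Fintype.sum_option])
      (fun o _ => by
        cases o with
        | none => exact h3
        | some i =>
          simp only [Option.elim_some]
          split_ifs
          · exact h1 i
          · exact h2 i)
    convert this using 1
    simp only [Fintype.sum_option, Option.elim_none, Option.elim_some, comb_apply]
    have e : ∀ i, |t i| • (if 0 ≤ t i then c + v i else c - v i) = |t i| • c + t i • v i := by
      intro i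
      split_ifs with h
      · rw [abs_of_nonneg h, smul_add]
      · rw [abs_of_neg (not_le.1 h)]; module
    simp only [e, Finset.sum_add_distrib, ← Finset.sum_smul]
    module

lemma volume_oct : volume {t : E (n + 1) | ∑ i, |t i| ≤ 1} =
    ENNReal.ofReal (2 ^ (n + 1) / ((n + 1).factorial : ℝ)) := by
  have hm : MeasurableSet {t : E (n + 1) | ∑ i, |t i| ≤ 1} :=
    (isClosed_le (by fun_prop) continuous_const).measurableSet
  rw [← (PiLp.volume_preserving_toLp (Fin (n + 1))).measure_preimage hm.nullMeasurableSet]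
  have := MeasureTheory.volume_sum_rpow_le (Fin (n + 1)) (p := 1) le_rfl 1
  simp only [Real.rpow_one, div_one, ENNReal.ofReal_one, one_pow, one_mul, Fintype.card_fin]
    at this
  rw [Real.Gamma_nat_eq_factorial, one_add_one_eq_two, Real.Gamma_two, mul_one] at this
  exact this

lemma vol_crossPolytope (c : E (n + 1)) (v : Fin (n + 1) → E (n + 1)) :
    vol (crossPolytope c v) = 2 ^ (n + 1) / ((n + 1).factorial : ℝ) * |detv v| := by
  rw [vol, crossPolytope_eq, volume_add_comb, volume_oct, ← ENNReal.ofReal_mul (abs_nonneg _),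
    ENNReal.toReal_ofReal (by positivity), mul_comm]

/-- the largest volume of an inscribed cross-polytope -/
noncomputable def maxCross (M : Set (E n)) : ℝ :=
  sSup {x | ∃ c v, crossPolytope c v ⊆ M ∧ x = vol (crossPolytope c v)}

lemma le_maxCross {M : Set (E (n + 1))} (hM : IsCompact M) (hc : Convex ℝ M)
    (hs : ∀ x ∈ M, -x ∈ M) {v : Fin (n + 1) → E (n + 1)} (hv : ∀ i, v i ∈ M) :
    2 ^ (n + 1) / ((n + 1).factorial : ℝ) * |detv v| ≤ maxCross M := by
  rw [← vol_crossPolytope 0 v]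
  refine le_csSup ⟨vol M, ?_⟩ ⟨0, v, convexHull_min ?_ hc, rfl⟩
  · rintro _ ⟨c, v, h, rfl⟩
    exact ENNReal.toReal_mono hM.measure_lt_top.ne (measure_mono h)
  · rintro _ (⟨i, rfl⟩ | ⟨i, rfl⟩)
    · simpa using hv i
    · simpa using hs _ (hv i)

lemma detv_cons_row (h : ℝ) (w : Fin n → E (n + 1)) :
    detv (Fin.cons (cons h 0) w : Fin (n + 1) → E (n + 1)) = h * detv fun i => tail (w i) := by
  rw [detv, Matrix.det_succ_row_zero, Fin.sum_univ_succ]
  simp [detv]
  left
  rfl

lemma volume_hull_le {K : Set (E (n + 1))} (hK : IsCompact K) (hc : Convex ℝ K) {D : ℝ}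
    (hD : DB K D) {p : E (n + 1)} (hp : ((p +ᵥ K) ∩ K).Nonempty) :
    volume (hull K p) ≤ (kap (n + 1) + 2 * kap n) * ENNReal.ofReal D := by
  obtain ⟨T, hT⟩ := exists_iso p
  have hT1 : IsCompact (T '' K) := hK.image T.continuous
  have hT2 : Convex ℝ (T '' K) := hc.linear_image (T.toLinearEquiv : E (n + 1) →ₗ[ℝ] E (n + 1))
  have e1 : T '' hull K p = hull (T '' K) (cons ‖p‖ 0) := by
    rw [← hT]
    exact image_hull (T.toLinearEquiv : E (n + 1) →ₗ[ℝ] E (n + 1)) hc p
  rw [← volume_iso T, e1, volume_hull hT1 hT2 (norm_nonneg _), add_mul]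
  refine add_le_add (macbeath hT1 hT2 (hD.iso T)) ?_
  by_cases h0 : ‖p‖ = 0
  · simp [h0]
  have hpos : 0 < ‖p‖ := lt_of_le_of_ne (norm_nonneg _) (Ne.symm h0)
  have hD' : DB (tail '' (T '' K)) (2 * D / ‖p‖) := by
    intro z z' hz hz'
    choose a ha hab using hz
    choose b hb hab' using hz'
    obtain ⟨_, ⟨y, hy, rfl⟩, hx⟩ := hp
    have h1 := hD.iso T (Fin.cons (T (p + y)) a) (Fin.cons (T y) b)
      (fun i => Fin.cases ⟨_, hx, rfl⟩ (fun i => ha i) i)
      (fun i => Fin.cases ⟨_, hy, rfl⟩ (fun i => hb i) i)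
    have e2 : (fun i => (1 / 2 : ℝ) • ((Fin.cons (T (p + y)) a : Fin (n + 1) → E (n + 1)) i -
        (Fin.cons (T y) b : Fin (n + 1) → E (n + 1)) i)) =
        Fin.cons (cons (‖p‖ / 2) 0) fun i => (1 / 2 : ℝ) • (a i - b i) := by
      funext i
      refine Fin.cases ?_ (fun i => rfl) i
      simp only [Fin.cons_zero, map_add, add_sub_cancel_right, hT, smul_cons, smul_zero]
      congr 1; ring
    rw [e2, detv_cons_row, abs_mul, abs_of_pos (half_pos hpos)] at h1
    simp only [tail_smul, tail_sub, hab, hab'] at h1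
    rw [le_div_iff₀ hpos]
    linarith
  have h2 := macbeath (hT1.image continuous_tail) (hT2.linear_image (tailL n)) hD'
  refine (mul_le_mul_right h2 _).trans ?_
  rw [mul_left_comm, ← ENNReal.ofReal_mul hpos.le, mul_div_cancel₀ _ h0,
    ENNReal.ofReal_mul zero_le_two, ENNReal.ofReal_ofNat, mul_left_comm, mul_assoc]

theorem mass_upper {K : Set (E (n + 1))} (hK : IsBody K) {p : E (n + 1)}
    (hp : ((p +ᵥ K) ∩ K).Nonempty) :
    volMass (relBall K) (hull K p) ≤ kappa (n + 1) + 2 * kappa n := by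
  have hc0 : (0 : ℝ) < 2 ^ (n + 1) / ((n + 1).factorial : ℝ) := by positivity
  have hD : DB K (maxCross (relBall K) / (2 ^ (n + 1) / ((n + 1).factorial : ℝ))) := by
    intro a b ha hb
    rw [le_div_iff₀' hc0]
    exact le_maxCross (isCompact_relBall hK.1) (convex_relBall hK.2.1) relBall_neg
      fun i => mem_relBall.2 ⟨_, ha i, _, hb i, rfl⟩
  have h1 := volume_hull_le hK.1 hK.2.1 hD hp
  change 2 ^ (n + 1) / ((n + 1).factorial : ℝ) / maxCross (relBall K) * vol (hull K p) ≤ _
  have hk := kappa_pos (n + 1)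
  have hk' := kappa_pos n
  obtain ⟨x, hx⟩ := hK.2.2.mono interior_subset
  have h0 : 0 ≤ maxCross (relBall K) / (2 ^ (n + 1) / ((n + 1).factorial : ℝ)) :=
    (abs_nonneg _).trans (hD (fun _ => x) (fun _ => x) (fun _ => hx) (fun _ => hx))
  have e0 : kap (n + 1) + 2 * kap n = ENNReal.ofReal (kappa (n + 1) + 2 * kappa n) := by
    rw [ENNReal.ofReal_add hk.le (by positivity), ENNReal.ofReal_mul zero_le_two, ofReal_kappa,
      ofReal_kappa, ENNReal.ofReal_ofNat]
  rw [e0, ← ENNReal.ofReal_mul (by positivity)] at h1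
  have h2 : vol (hull K p) ≤ _ := ENNReal.toReal_le_of_le_ofReal (by positivity) h1
  generalize maxCross (relBall K) = m at h0 h2 ⊢
  generalize (2 : ℝ) ^ (n + 1) / ((n + 1).factorial : ℝ) = c at hc0 h0 h2 ⊢
  by_cases hm : m = 0
  · subst hm; simp; positivity
  · have hm' : 0 < m := by
      have : 0 ≤ m := by simpa [div_nonneg_iff, hc0.le, hc0.not_ge] using h0
      exact lt_of_le_of_ne this (Ne.symm hm)
    calc c / m * vol (hull K p) ≤ c / m * ((kappa (n + 1) + 2 * kappa n) * (m / c)) :=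
          mul_le_mul_of_nonneg_left h2 (by positivity)
      _ = _ := by field_simp

lemma isBody_ball : IsBody (closedBall (0 : E n) 1) :=
  ⟨isCompact_closedBall _ _, convex_closedBall _ _,
    ⟨0, mem_interior_iff_mem_nhds.2 (closedBall_mem_nhds _ one_pos)⟩⟩

lemma abs_detv_le (v : Fin n → E n) : |detv v| ≤ ∏ i, ‖v i‖ := by
  have : Fact (Module.finrank ℝ (E n) = n) := ⟨finrank_euclideanSpace_fin⟩
  let o : Orientation ℝ (E n) (Fin n) := (EuclideanSpace.basisFun (Fin n) ℝ).toBasis.orientation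
  rw [detv_eq, ← o.volumeForm_robust']
  exact o.abs_volumeForm_apply_le v

lemma tail_ball : tail '' closedBall (0 : E (n + 1)) 1 = closedBall 0 1 := by
  ext y
  constructor
  · rintro ⟨x, hx, rfl⟩
    rw [mem_closedBall_zero_iff, ← sq_le_one_iff₀ (norm_nonneg _)] at hx ⊢
    rw [← cons_tail x, norm_sq_cons] at hx
    nlinarith [sq_nonneg (x 0)]
  · intro hy
    refine ⟨cons 0 y, ?_, rfl⟩
    rw [mem_closedBall_zero_iff, ← sq_le_one_iff₀ (norm_nonneg _)] at hy ⊢
    rw [norm_sq_cons]; linarith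

lemma two_inter {K : Set (E (n + 1))} (h1 : cons 1 0 ∈ K) (hs : ∀ x ∈ K, -x ∈ K) :
    ((cons 2 (0 : E n) +ᵥ K) ∩ K).Nonempty := by
  refine ⟨cons 1 0, ⟨_, hs _ h1, ?_⟩, h1⟩
  simp only [vadd_eq_add, neg_cons, cons_add]
  norm_num

theorem mass_ball : cTr volMass (closedBall (0 : E (n + 1)) 1) = kappa (n + 1) + 2 * kappa n := by
  have hs : ∀ x ∈ closedBall (0 : E (n + 1)) 1, -x ∈ closedBall (0 : E (n + 1)) 1 :=
    fun x hx => by simpa using hx
  refine le_antisymm (cTr_le isBody_ball fun p hp => mass_upper isBody_ball hp) ?_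
  have he : cons 1 0 ∈ closedBall (0 : E (n + 1)) 1 := by
    rw [mem_closedBall_zero_iff, ← sq_le_one_iff₀ (norm_nonneg _), norm_sq_cons]; simp
  refine le_trans ?_ (le_cTr (fun p hp => mass_upper isBody_ball hp) (two_inter he hs))
  rw [relBall_eq_self (convex_closedBall _ _) hs]
  change _ ≤ 2 ^ (n + 1) / ((n + 1).factorial : ℝ) / maxCross (closedBall (0 : E (n + 1)) 1) *
    vol (hull _ _)
  have hc0 : (0 : ℝ) < 2 ^ (n + 1) / ((n + 1).factorial : ℝ) := by positivity
  have h1 : maxCross (closedBall (0 : E (n + 1)) 1) = 2 ^ (n + 1) / ((n + 1).factorial : ℝ) := by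
    apply le_antisymm
    · refine Real.sSup_le ?_ hc0.le
      rintro _ ⟨c, v, h, rfl⟩
      rw [vol_crossPolytope]
      refine mul_le_of_le_one_right hc0.le ((abs_detv_le v).trans
        (Finset.prod_le_one (fun i _ => norm_nonneg _) fun i _ => ?_))
      have a1 := h (subset_convexHull ℝ _ (Or.inl ⟨i, rfl⟩))
      have a2 := hs _ (h (subset_convexHull ℝ _ (Or.inr ⟨i, rfl⟩)))
      have hcv : Convex ℝ (closedBall (0 : E (n + 1)) 1) := convex_closedBall _ _
      have a3 := hcv a1 a2 (a := 1 / 2) (b := 1 / 2) (by norm_num) (by norm_num) (by norm_num)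
      have e : v i = (1 / 2 : ℝ) • (c + v i) + (1 / 2 : ℝ) • -(c - v i) := by module
      simp only at a3
      rw [← e] at a3
      simpa using a3
    · have := le_maxCross (isCompact_closedBall (0 : E (n + 1)) 1) (convex_closedBall _ _) hs
        (v := (EuclideanSpace.basisFun (Fin (n + 1)) ℝ).toBasis) (fun i => by simp)
      rwa [detv_eq, Module.Basis.det_self, abs_one, mul_one] at this
  rw [h1, div_self hc0.ne', one_mul, vol,
    volume_hull (isCompact_closedBall _ _) (convex_closedBall _ _) zero_le_two, tail_ball]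
  change _ ≤ (kap (n + 1) + ENNReal.ofReal 2 * kap n).toReal
  rw [ENNReal.toReal_add (kap_ne_top _) (ENNReal.mul_ne_top ENNReal.ofReal_ne_top (kap_ne_top _)),
    ENNReal.toReal_mul, ENNReal.toReal_ofReal zero_le_two]
  rfl

end Pool.Agent.Lib.MP_ccd96b_co
end

-- part Pool.Agent.Lib.MP_ccd96b_co.Star
section

/-!
The case of Gromov's mass-star.
-/

set_option autoImplicit false

open MeasureTheory Set ENNReal Metric Filter Topology
open scoped RealInnerProductSpace Pointwise

namespace Pool.Agent.Lib.MP_ccd96b_co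

open Pool.Agent.Shared.BM

variable {n : ℕ}

/-- the unit cube -/
def cube (n : ℕ) : Set (E n) := {t | ∀ i, 0 ≤ t i ∧ t i ≤ 1}

lemma isClosed_cube : IsClosed (cube n) := by
  have : cube n = ⋂ i, ((fun t : E n => t i) ⁻¹' Icc 0 1) := by ext t; simp [cube]
  rw [this]
  exact isClosed_iInter fun i => isClosed_Icc.preimage (by fun_prop)

lemma convex_cube : Convex ℝ (cube n) := by
  intro x hx y hy a b ha hb hab i
  simp only [PiLp.add_apply, PiLp.smul_apply, smul_eq_mul]
  constructor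
  · have := (hx i).1; have := (hy i).1; positivity
  · nlinarith [(hx i).2, (hy i).2]

lemma volume_cube : volume (cube n) = 1 := by
  rw [← (PiLp.volume_preserving_toLp (Fin n)).measure_preimage
    isClosed_cube.measurableSet.nullMeasurableSet]
  have : WithLp.toLp 2 ⁻¹' cube n = Icc (0 : Fin n → ℝ) 1 := by
    ext t; simp [cube, Pi.le_def, forall_and]
  rw [this, Real.volume_Icc_pi]
  simp

lemma volume_ocube : volume {t : E n | ∀ i, 0 < t i ∧ t i < 1} = 1 := by
  have h : {t : E n | ∀ i, 0 < t i ∧ t i < 1} = ⋂ i, ((fun t : E n => t i) ⁻¹' Ioo 0 1) := by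
    ext t; simp
  have hm : MeasurableSet {t : E n | ∀ i, 0 < t i ∧ t i < 1} := by
    rw [h]
    exact (isOpen_iInter_of_finite fun i => isOpen_Ioo.preimage (by fun_prop)).measurableSet
  rw [← (PiLp.volume_preserving_toLp (Fin n)).measure_preimage hm.nullMeasurableSet]
  have : WithLp.toLp 2 ⁻¹' {t : E n | ∀ i, 0 < t i ∧ t i < 1} =
      pi univ fun _ : Fin n => Ioo (0 : ℝ) 1 := by
    ext t; simp
  rw [this, Real.volume_pi_Ioo (a := fun _ => 0) (b := fun _ => 1)]
  simp

lemma isCompact_cube : IsCompact (cube n) := by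
  have : cube n = WithLp.toLp 2 '' Icc (0 : Fin n → ℝ) 1 := by
    ext t
    constructor
    · intro ht
      exact ⟨t.ofLp, ⟨fun i => (ht i).1, fun i => (ht i).2⟩, rfl⟩
    · rintro ⟨s, hs, rfl⟩ i
      exact ⟨hs.1 i, hs.2 i⟩
  rw [this]
  exact isCompact_Icc.image (PiLp.continuous_toLp 2 _)

lemma parallelotope_eq (c : E n) (w : Fin n → E n) :
    parallelotope c w = (fun t => c + comb w t) '' cube n := by
  ext x
  constructor
  · rintro ⟨t, ht, rfl⟩
    exact ⟨WithLp.toLp 2 t, ht, by simp [comb_apply]⟩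
  · rintro ⟨t, ht, rfl⟩
    exact ⟨t.ofLp, ht, by simp [comb_apply]⟩

lemma volume_parallelotope (c : E n) (w : Fin n → E n) :
    volume (parallelotope c w) = ENNReal.ofReal |detv w| := by
  rw [parallelotope_eq, volume_add_comb, volume_cube, mul_one]

lemma vol_parallelotope (c : E n) (w : Fin n → E n) : vol (parallelotope c w) = |detv w| := by
  rw [vol, volume_parallelotope, ENNReal.toReal_ofReal (abs_nonneg _)]

/-- the standard basis with the `i`-th vector replaced by `p` -/
noncomputable def upd (i : Fin n) (p : E n) : Fin n → E n :=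
  Function.update (fun j => EuclideanSpace.single j 1) i p

lemma detv_upd (i : Fin n) (p : E n) : detv (upd i p) = p i := by
  have : (Matrix.of fun j k => upd i p j k) = (1 : Matrix (Fin n) (Fin n) ℝ).updateRow i p.ofLp := by
    ext j k
    by_cases h : j = i
    · subst h; simp [upd]
    · simp [upd, h, Matrix.one_apply, PiLp.single_apply, eq_comm]
  rw [detv, this, ← Matrix.cramer_transpose_apply]
  simp

lemma comb_upd (i : Fin n) (p t : E n) (k : Fin n) :
    comb (upd i p) t k = (if k = i then 0 else t k) + t i * p k := by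
  rw [comb_apply, ← Finset.add_sum_erase _ _ (Finset.mem_univ i)]
  have : ∑ j ∈ Finset.univ.erase i, t j • upd i p j =
      ∑ j ∈ Finset.univ.erase i, t j • (EuclideanSpace.single j (1 : ℝ) : E n) :=
    Finset.sum_congr rfl fun j hj => by simp [upd, Finset.ne_of_mem_erase hj]
  rw [this]
  simp [upd, Pi.single_apply, add_comm, Finset.sum_apply]
  split_ifs with h
  · simp [h]
  · simp

lemma hull_cube_subset (p : E n) : hull (cube n) p ⊆ cube n ∪ ⋃ i,
    (fun t => (if 0 < p i then EuclideanSpace.single i 1 else 0) + comb (upd i p) t) '' cube n := by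
  intro z hz
  obtain ⟨x, hx, τ, h0, h1, hz⟩ := (mem_hull convex_cube).1 hz
  have hS : IsCompact (Icc (0 : ℝ) 1 ∩ {σ | z - σ • p ∈ cube n}) :=
    isCompact_Icc.inter_right (isClosed_cube.preimage (by fun_prop))
  obtain ⟨σ, ⟨⟨hσ0, hσ1⟩, hσ⟩, hmin⟩ := hS.exists_isLeast ⟨τ, ⟨h0, h1⟩, by simpa [hz] using hx⟩
  rcases hσ0.eq_or_lt with h | hpos
  · left
    subst h
    simpa using hσ
  right
  have hσ' : ∀ i, 0 ≤ z i - σ * p i ∧ z i - σ * p i ≤ 1 := hσ
  have hex : ∃ i, (0 < p i ∧ z i - σ * p i = 1) ∨ (p i < 0 ∧ z i - σ * p i = 0) := by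
    by_contra hcon
    push Not at hcon
    have e1 : ∀ᶠ ρ in 𝓝[<] σ, ∀ i, 0 ≤ z i - ρ * p i ∧ z i - ρ * p i ≤ 1 := by
      refine eventually_all.2 fun i => ?_
      have hc : Tendsto (fun ρ : ℝ => z i - ρ * p i) (𝓝[<] σ) (𝓝 (z i - σ * p i)) :=
        (Continuous.tendsto (by fun_prop) σ).mono_left nhdsWithin_le_nhds
      rcases lt_trichotomy (p i) 0 with h | h | h
      · have h2 : 0 < z i - σ * p i := lt_of_le_of_ne (hσ' i).1 ((hcon i).2 h).symm
        filter_upwards [hc.eventually (lt_mem_nhds h2), self_mem_nhdsWithin] with ρ a1 a2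
        have a3 : ρ < σ := a2
        exact ⟨a1.le, by nlinarith [(hσ' i).2]⟩
      · simpa [h] using hσ' i
      · have h2 : z i - σ * p i < 1 := lt_of_le_of_ne (hσ' i).2 ((hcon i).1 h)
        filter_upwards [hc.eventually (gt_mem_nhds h2), self_mem_nhdsWithin] with ρ a1 a2
        have a3 : ρ < σ := a2
        exact ⟨by nlinarith [(hσ' i).1], a1.le⟩
    have e2 : ∀ᶠ ρ in 𝓝[<] σ, 0 < ρ := (lt_mem_nhds hpos).filter_mono nhdsWithin_le_nhds
    obtain ⟨ρ, a1, a2, a3⟩ := (e1.and (e2.and self_mem_nhdsWithin)).exists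
    have a4 : ρ < σ := a3
    exact absurd (hmin ⟨⟨a2.le, by linarith⟩, a1⟩) (not_le.2 a4)
  obtain ⟨i, hi⟩ := hex
  refine mem_iUnion.2 ⟨i, WithLp.toLp 2 (Function.update (z - σ • p).ofLp i σ), fun k => ?_, ?_⟩
  · by_cases hk : k = i
    · subst hk; simp [hσ0, hσ1]
    · simpa [hk] using hσ' k
  · ext k
    simp only [PiLp.add_apply, comb_upd]
    by_cases hk : k = i
    · subst hk
      rcases hi with ⟨h2, h3⟩ | ⟨h2, h3⟩
      · simp [h2]; linarith
      · simp [h2.not_gt]; linarith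
    · have : (if 0 < p i then EuclideanSpace.single i (1 : ℝ) else (0 : E n)) k = 0 := by
        split_ifs <;> simp [hk]
      simp [this, hk]

lemma volume_hull_cube_le {p : E n} (hp : ∀ i, |p i| ≤ 1) :
    volume (hull (cube n) p) ≤ n + 1 := by
  refine (measure_mono (hull_cube_subset p)).trans ((measure_union_le _ _).trans ?_)
  rw [volume_cube, add_comm]
  refine add_le_add_left ((measure_iUnion_fintype_le _ _).trans ?_) _
  calc _ ≤ ∑ _i : Fin n, (1 : ℝ≥0∞) := Finset.sum_le_sum fun i _ => by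
        rw [volume_add_comb, volume_cube, mul_one, detv_upd]
        exact ENNReal.ofReal_le_one.2 (hp i)
    _ = n := by simp

lemma volume_hull_le_par {K : Set (E n)} (hK : IsBody K) {p : E n}
    (hp : ((p +ᵥ K) ∩ K).Nonempty) {c : E n} {w : Fin n → E n}
    (h : relBall K ⊆ parallelotope c w) :
    volume (hull K p) ≤ ENNReal.ofReal |detv w| * (n + 1) := by
  have hdet : LinearMap.det (comb w) ≠ 0 := by
    rw [det_comb]
    intro h0
    obtain ⟨r, hr, hball⟩ := zero_mem_interior_relBall hK.2.2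
    have := measure_mono (μ := volume) (hball.trans h)
    rw [volume_parallelotope, h0, abs_zero, ENNReal.ofReal_zero, le_zero_iff] at this
    exact (measure_closedBall_pos _ _ hr).ne' this
  let W : E n ≃ₗ[ℝ] E n := LinearMap.equivOfDetNeZero _ hdet
  have hW : ∀ t, W t = comb w t := fun t => rfl
  have key : ∀ a ∈ K, ∀ b ∈ K, ∀ i, |W.symm a i - W.symm b i| ≤ 1 := by
    intro a ha b hb i
    have h1 := h (mem_relBall.2 ⟨a, ha, b, hb, rfl⟩)
    have h2 := h (mem_relBall.2 ⟨b, hb, a, ha, rfl⟩)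
    rw [parallelotope_eq] at h1 h2
    obtain ⟨t, ht, h1⟩ := h1
    obtain ⟨s, hs, h2⟩ := h2
    have e : a - b = W (t - s) := by
      have e1 : a - b = (1 / 2 : ℝ) • (a - b) - (1 / 2 : ℝ) • (b - a) := by module
      rw [e1, ← h1, ← h2, map_sub, hW, hW]
      simp
    have e2 : W.symm a - W.symm b = t - s := by rw [← map_sub, e]; simp
    have e3 : W.symm a i - W.symm b i = t i - s i := congrArg (fun x : E n => x i) e2
    rw [e3, abs_le]
    constructor <;> linarith [(ht i).1, (ht i).2, (hs i).1, (hs i).2]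
  have hne : K.Nonempty := hK.2.2.mono interior_subset
  have hWc : Continuous W.symm := W.symm.toLinearMap.continuous_of_finiteDimensional
  have hmin : ∀ i, ∃ m ∈ K, ∀ a ∈ K, W.symm m i ≤ W.symm a i := fun i =>
    hK.1.exists_isMinOn hne (f := fun a => W.symm a i) (Continuous.continuousOn (by fun_prop))
  choose m hm hm' using hmin
  let l : E n := WithLp.toLp 2 fun i => W.symm (m i) i
  have hsub : hull K p ⊆ (fun t => W l + comb w t) '' hull (cube n) (W.symm p) := by
    intro z hz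
    obtain ⟨x, hx, τ, h0, h1, rfl⟩ := (mem_hull hK.2.1).1 hz
    refine ⟨_, (mem_hull convex_cube).2 ⟨W.symm x - l, fun i => ?_, τ, h0, h1, rfl⟩, ?_⟩
    · have a1 := hm' i x hx
      have a2 := abs_le.1 (key x hx (m i) (hm i) i)
      simp only [PiLp.sub_apply, l]
      constructor <;> linarith [a2.2]
    · simp only [← hW, map_add, map_sub, map_smul, LinearEquiv.apply_symm_apply]
      abel
  refine (measure_mono hsub).trans ?_
  rw [volume_add_comb]
  refine mul_le_mul_right (volume_hull_cube_le fun i => ?_) _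
  obtain ⟨_, ⟨b, hb, rfl⟩, ha⟩ := hp
  simpa using key _ ha b hb i

/-- the least volume of a circumscribed parallelotope -/
noncomputable def minPar (M : Set (E n)) : ℝ :=
  sInf {x | ∃ c w, M ⊆ parallelotope c w ∧ x = vol (parallelotope c w)}

lemma exists_par {M : Set (E n)} (hM : IsCompact M) : ∃ c w, M ⊆ parallelotope c w := by
  obtain ⟨R, hR0, hR⟩ := hM.isBounded.subset_closedBall_lt 0 0
  refine ⟨WithLp.toLp 2 fun _ => -R, fun i => EuclideanSpace.single i (2 * R), fun x hx =>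
    ⟨fun i => (x i + R) / (2 * R), fun i => ?_, ?_⟩⟩
  · have h1 : |x i| ≤ R := (PiLp.norm_apply_le x i).trans (mem_closedBall_zero_iff.1 (hR hx))
    rw [abs_le] at h1
    exact ⟨div_nonneg (by linarith [h1.1]) (by linarith),
      (div_le_one (by linarith)).2 (by linarith [h1.2])⟩
  · ext k
    simp [Pi.single_apply, Finset.sum_apply]
    field_simp
    ring

theorem star_upper {K : Set (E n)} (hK : IsBody K) {p : E n} (hp : ((p +ᵥ K) ∩ K).Nonempty) :
    volMassStar (relBall K) (hull K p) ≤ (n + 1) * 2 ^ n := by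
  change 2 ^ n / minPar (relBall K) * vol (hull K p) ≤ _
  have h1 : vol (hull K p) / (n + 1) ≤ minPar (relBall K) := by
    obtain ⟨c, w, h⟩ := exists_par (isCompact_relBall hK.1)
    refine le_csInf ⟨_, c, w, h, rfl⟩ ?_
    rintro _ ⟨c, w, h, rfl⟩
    rw [vol_parallelotope, div_le_iff₀ (by positivity)]
    refine ENNReal.toReal_le_of_le_ofReal (by positivity) ?_
    rw [ENNReal.ofReal_mul (abs_nonneg _), ENNReal.ofReal_add (by positivity) zero_le_one,
      ENNReal.ofReal_natCast, ENNReal.ofReal_one]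
    exact volume_hull_le_par hK hp h
  have h0 : 0 ≤ vol (hull K p) := ENNReal.toReal_nonneg
  generalize minPar (relBall K) = m at h1 ⊢
  by_cases hm : m = 0
  · subst hm; simp; positivity
  · have hm' : 0 < m := lt_of_le_of_ne ((div_nonneg h0 (by positivity)).trans h1) (Ne.symm hm)
    rw [div_le_iff₀ (by positivity)] at h1
    calc 2 ^ n / m * vol (hull K p) ≤ 2 ^ n / m * (m * (n + 1)) :=
          mul_le_mul_of_nonneg_left h1 (by positivity)
      _ = _ := by field_simp

lemma isBody_cube : IsBody (cube n) := by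
  refine ⟨isCompact_cube, convex_cube, ?_⟩
  have h : {t : E n | ∀ i, 0 < t i ∧ t i < 1} = ⋂ i, ((fun t : E n => t i) ⁻¹' Ioo 0 1) := by
    ext t; simp
  have ho : IsOpen {t : E n | ∀ i, 0 < t i ∧ t i < 1} := by
    rw [h]; exact isOpen_iInter_of_finite fun i => isOpen_Ioo.preimage (by fun_prop)
  refine ⟨WithLp.toLp 2 fun _ => 1 / 2, interior_maximal (fun t ht i => ⟨(ht i).1.le, (ht i).2.le⟩)
    ho fun i => ?_⟩
  norm_num

lemma le_volume_hull_cube :
    (n + 1 : ℝ≥0∞) ≤ volume (hull (cube n) (WithLp.toLp 2 fun _ => 1)) := by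
  let A : Fin n → Set (E n) := fun i =>
    {z | (1 < z i ∧ z i < 2) ∧ ∀ j, j ≠ i → z i - 1 < z j ∧ z j < z i}
  have hA : ∀ i, MeasurableSet (A i) := by
    intro i
    have h : A i = ((fun z : E n => z i) ⁻¹' Ioo 1 2) ∩
        ⋂ j, ⋂ (_ : j ≠ i), ((fun z : E n => z i - z j) ⁻¹' Ioo 0 1) := by
      ext z
      simp only [A, mem_ofPred_eq, mem_inter_iff, mem_preimage, mem_Ioo, mem_iInter]
      refine and_congr_right fun _ => forall₂_congr fun j _ => ?_
      constructor <;> rintro ⟨h1, h2⟩ <;> constructor <;> linarith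
    rw [h]
    exact (measurableSet_Ioo.preimage (by fun_prop)).inter (MeasurableSet.iInter fun j =>
      MeasurableSet.iInter fun _ => measurableSet_Ioo.preimage (by fun_prop))
  have hA1 : ∀ i, 1 ≤ volume (A i) := by
    intro i
    have := volume_add_comb (EuclideanSpace.single i 1) (upd i (WithLp.toLp 2 fun _ => 1))
      {t : E n | ∀ i, 0 < t i ∧ t i < 1}
    rw [volume_ocube, detv_upd] at this
    simp only [abs_one, ENNReal.ofReal_one, mul_one] at this
    rw [← this]
    refine measure_mono ?_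
    rintro _ ⟨t, ht, rfl⟩
    refine ⟨?_, fun j hj => ?_⟩
    · simp only [PiLp.add_apply, comb_upd]
      simp
      constructor <;> linarith [(ht i).1, (ht i).2]
    · simp only [PiLp.add_apply, comb_upd]
      simp [hj]
      constructor <;> linarith [(ht j).1, (ht j).2]
  have hsub : cube n ∪ ⋃ i, A i ⊆ hull (cube n) (WithLp.toLp 2 fun _ => 1) := by
    rintro z (hz | hz)
    · exact subset_convexHull ℝ _ (Or.inl hz)
    · obtain ⟨i, ⟨h1, h2⟩, h3⟩ := mem_iUnion.1 hz
      refine (mem_hull convex_cube).2 ⟨z - (z i - 1) • WithLp.toLp 2 fun _ => 1, fun j => ?_,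
        z i - 1, by linarith, by linarith, by simp⟩
      simp only [PiLp.sub_apply, PiLp.smul_apply, smul_eq_mul, mul_one]
      by_cases hj : j = i
      · subst hj; simp
      · constructor <;> linarith [(h3 j hj).1, (h3 j hj).2]
  refine le_trans ?_ (measure_mono hsub)
  rw [measure_union _ (MeasurableSet.iUnion hA), volume_cube, add_comm, measure_iUnion _ hA,
    tsum_fintype]
  · refine add_le_add_right ?_ _
    calc (n : ℝ≥0∞) = ∑ _i : Fin n, (1 : ℝ≥0∞) := by simp
      _ ≤ _ := Finset.sum_le_sum fun i _ => hA1 i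
  · intro i j hij
    rw [Function.onFun, Set.disjoint_left]
    intro z h1 h2
    linarith [(h1.2 j hij.symm).2, (h2.2 i hij).2]
  · rw [Set.disjoint_left]
    intro z h1 h2
    obtain ⟨i, h2⟩ := mem_iUnion.1 h2
    linarith [(h1 i).2, h2.1.1]

theorem star_cube : cTr volMassStar (cube n) = (n + 1) * 2 ^ n := by
  refine le_antisymm (cTr_le isBody_cube fun p hp => star_upper isBody_cube hp) ?_
  have hp : (((WithLp.toLp 2 fun _ => (1 : ℝ) : E n) +ᵥ cube n) ∩ cube n).Nonempty :=
    ⟨WithLp.toLp 2 fun _ => 1, ⟨0, fun i => by simp, by simp⟩, fun i => by simp⟩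
  refine le_trans ?_ (le_cTr (fun p hp => star_upper isBody_cube hp) hp)
  change _ ≤ 2 ^ n / minPar (relBall (cube n)) * vol (hull _ _)
  have hpar : relBall (cube n) ⊆ parallelotope (WithLp.toLp 2 fun _ => -(1 / 2))
      (EuclideanSpace.basisFun (Fin n) ℝ).toBasis := by
    intro z hz
    obtain ⟨a, ha, b, hb, rfl⟩ := mem_relBall.1 hz
    refine ⟨fun i => (a i - b i + 1) / 2, fun i => ?_, ?_⟩
    · constructor <;> linarith [(ha i).1, (ha i).2, (hb i).1, (hb i).2]
    · ext k
      simp [Pi.single_apply, Finset.sum_apply]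
      ring
  have h1 : minPar (relBall (cube n)) = 1 := by
    apply le_antisymm
    · refine csInf_le ⟨0, ?_⟩ ⟨_, _, hpar, ?_⟩
      · rintro _ ⟨c, w, _, rfl⟩
        exact ENNReal.toReal_nonneg
      · rw [vol_parallelotope, detv_eq, Module.Basis.det_self, abs_one]
    · refine le_csInf ⟨_, _, _, hpar, rfl⟩ ?_
      rintro _ ⟨c, w, h, rfl⟩
      have := (volume_le_relBall isCompact_cube).trans (measure_mono h)
      rw [volume_cube, volume_parallelotope, ENNReal.one_le_ofReal] at this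
      rwa [vol_parallelotope]
  rw [h1, div_one, mul_comm]
  refine mul_le_mul_of_nonneg_left ?_ (by positivity)
  have h2 := ENNReal.toReal_mono (isCompact_hull isCompact_cube convex_cube _).measure_lt_top.ne
    (le_volume_hull_cube (n := n))
  rw [ENNReal.toReal_add (by simp) (by simp)] at h2
  simpa [vol] using h2

end Pool.Agent.Lib.MP_ccd96b_co
end

-- part Pool.Agent.Lib.MP_ccd96b_co.HTUpper
section

/-!
The upper bound in the Holmes-Thompson case.
-/

set_option autoImplicit false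

open MeasureTheory Set ENNReal Metric Filter Topology
open scoped RealInnerProductSpace Pointwise

namespace Pool.Agent.Lib.MP_ccd96b_co

open Pool.Agent.Shared.BM

lemma lintegral_Z (m : ℕ) {ν : ℝ} (hν : 0 < ν) :
    ∫⁻ p in Ioi (0 : ℝ), (Iic (1 : ℝ)).indicator
      (fun p => ENNReal.ofReal ((1 - p) ^ m / (RR m ν p + ν))) p = ENNReal.ofReal (ZZ m ν) := by
  rw [lintegral_indicator measurableSet_Iic, Measure.restrict_restrict measurableSet_Iic,
    Iic_inter_Ioi, ZZ, intervalIntegral.integral_of_le zero_le_one,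
    ofReal_integral_eq_lintegral_ofReal]
  · exact ((cont_Z hν).integrableOn_Icc).mono_set Ioc_subset_Icc_self
  · exact (ae_restrict_iff' measurableSet_Ioc).2 (Eventually.of_forall fun p hp =>
      div_nonneg (w_mem (Ioc_subset_Icc_self hp)).1 (add_pos (RR_pos hν p) hν).le)

lemma ZZ_nonneg {m : ℕ} {ν : ℝ} (hν : 0 < ν) : 0 ≤ ZZ m ν :=
  intervalIntegral.integral_nonneg zero_le_one fun p hp =>
    div_nonneg (w_mem hp).1 (add_pos (RR_pos hν p) hν).le

theorem oneD (m : ℕ) {φ ψ : ℝ → ℝ≥0∞} (hφ : Measurable φ) (hψ : Measurable ψ) {a : ℝ}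
    (ha : 0 < a)
    (H : ∀ t s, 0 < t → 0 < s →
      φ t * ψ s ≤ if 0 ≤ 1 - t * s then ENNReal.ofReal (1 - t * s) ^ m else 0)
    (Ha : ∀ s, 0 < s → ENNReal.ofReal a * ψ s ≤ 1)
    (H1 : ∀ s, 1 < s → ψ s = 0)
    (hF : ⨆ x, ENNReal.ofReal (Real.exp x) * φ (Real.exp x) ≠ ⊤)
    (hF0 : ∫⁻ t in Ioi (0 : ℝ), φ t ≠ 0) :
    ∃ ν, 0 < ν ∧ (ENNReal.ofReal a + ∫⁻ t in Ioi (0 : ℝ), φ t) * ∫⁻ s in Ioi (0 : ℝ), ψ s ≤
      ENNReal.ofReal (VV m ν) ^ 2 := by
  rw [lintegral_Ioi_eq_exp φ] at hF0 ⊢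
  rw [lintegral_Ioi_eq_exp ψ]
  set A : ℝ → ℝ≥0∞ := fun x => ENNReal.ofReal (Real.exp x) * φ (Real.exp x) with hA
  set B : ℝ → ℝ≥0∞ := fun x => ENNReal.ofReal (Real.exp x) * ψ (Real.exp x) with hB
  have hm : Measurable fun x => ENNReal.ofReal (Real.exp x) :=
    ENNReal.measurable_ofReal.comp Real.measurable_exp
  have hAm : Measurable A := hm.mul (hφ.comp Real.measurable_exp)
  have hBm : Measurable B := hm.mul (hψ.comp Real.measurable_exp)
  have hB1 : ∀ x, B x ≤ ENNReal.ofReal (Real.exp x / a) := by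
    intro x
    rw [div_eq_mul_inv, ENNReal.ofReal_mul (Real.exp_pos x).le, ENNReal.ofReal_inv_of_pos ha]
    refine mul_le_mul_right ?_ _
    rw [ENNReal.le_inv_iff_mul_le, mul_comm]
    exact Ha _ (Real.exp_pos x)
  have hB2 : ∀ x, 0 < x → B x = 0 := fun x hx => by
    simp only [hB, H1 _ (Real.one_lt_exp_iff.2 hx), mul_zero]
  have hG : ⨆ x, B x ≠ ⊤ := by
    refine ne_top_of_le_ne_top (ENNReal.ofReal_ne_top (r := 1 / a)) (iSup_le fun x => ?_)
    by_cases hx : 0 < x
    · simp [hB2 x hx]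
    · exact (hB1 x).trans (ENNReal.ofReal_le_ofReal (div_le_div_of_nonneg_right
        (Real.exp_le_one_iff.2 (not_lt.1 hx)) ha.le))
  by_cases hG0 : ⨆ x, B x = 0
  · have : B = fun _ => 0 := funext fun x => le_zero_iff.1 (hG0 ▸ le_iSup B x)
    exact ⟨1, one_pos, by simp [this]⟩
  have hF1 : ⨆ x, A x ≠ 0 := by
    intro h
    have : A = fun _ => 0 := funext fun x => le_zero_iff.1 (h ▸ le_iSup A x)
    simp [this] at hF0
  obtain ⟨F, hFp, hFe⟩ : ∃ F : ℝ, 0 < F ∧ ⨆ x, A x = ENNReal.ofReal F :=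
    ⟨_, ENNReal.toReal_pos hF1 hF, (ENNReal.ofReal_toReal hF).symm⟩
  obtain ⟨G, hGp, hGe⟩ : ∃ G : ℝ, 0 < G ∧ ⨆ x, B x = ENNReal.ofReal G :=
    ⟨_, ENNReal.toReal_pos hG0 hG, (ENNReal.ofReal_toReal hG).symm⟩
  obtain ⟨ν, hν, hbal⟩ := exists_balance m hFp hGp ha
  refine ⟨ν, hν, ?_⟩
  set c : ℝ := G / (√(ν ^ 2 + F * G) + ν) with hc
  have hc0 : 0 < c := by positivity
  have hcF : c * F = c⁻¹ * G - 2 * ν := by
    have h1 : √(ν ^ 2 + F * G) ^ 2 = ν ^ 2 + F * G := Real.sq_sqrt (by positivity)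
    have h2 : 0 < √(ν ^ 2 + F * G) + ν := by positivity
    rw [hc]
    generalize √(ν ^ 2 + F * G) = S at h1 h2
    field_simp
    nlinarith
  let z : ℝ → ℝ≥0∞ := fun l => ENNReal.ofReal (Real.exp l) * (Iic (1 : ℝ)).indicator
      (fun p => ENNReal.ofReal ((1 - p) ^ m / (RR m ν p + ν))) (Real.exp l)
  have hz : Measurable z := hm.mul ((Measurable.indicator
    (ENNReal.measurable_ofReal.comp (cont_Z hν).measurable) measurableSet_Iic).comp
      Real.measurable_exp)
  have hcc : ENNReal.ofReal c * ENNReal.ofReal c⁻¹ = 1 := by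
    rw [← ENNReal.ofReal_mul hc0.le, mul_inv_cancel₀ hc0.ne', ENNReal.ofReal_one]
  have key := level (a := fun x => ENNReal.ofReal c * A x)
    (b := fun y => ENNReal.ofReal c⁻¹ * B y - ENNReal.ofReal (2 * ν)) (z := z)
    (hAm.const_mul _) ((hBm.const_mul _).sub measurable_const) hz
    (by
      rw [← ENNReal.iSup_sub, ← ENNReal.mul_iSup, ← ENNReal.mul_iSup, hFe, hGe,
        ← ENNReal.ofReal_mul hc0.le, ← ENNReal.ofReal_mul (by positivity),
        ← ENNReal.ofReal_sub _ (by positivity), hcF])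
    (fun x y => by
      by_contra hcon
      push Not at hcon
      rw [lt_min_iff, lt_tsub_iff_right] at hcon
      have h1 := ENNReal.mul_lt_mul hcon.1 hcon.2
      rw [mul_mul_mul_comm, hcc, one_mul] at h1
      have h2 : A x * B y ≤ ENNReal.ofReal (Real.exp (x + y)) *
          (if 0 ≤ 1 - Real.exp (x + y) then ENNReal.ofReal (1 - Real.exp (x + y)) ^ m else 0) := by
        rw [hA, hB]
        simp only
        rw [mul_mul_mul_comm, ← ENNReal.ofReal_mul (Real.exp_pos x).le, Real.exp_add]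
        exact mul_le_mul_right (H _ _ (Real.exp_pos x) (Real.exp_pos y)) _
      have h3 := h1.trans_le h2
      simp only [z] at h3
      have hp0 := Real.exp_pos (x + y)
      generalize Real.exp (x + y) = p at h3 hp0
      split_ifs at h3 with h
      · have hp : p ∈ Icc (0 : ℝ) 1 := ⟨hp0.le, by linarith⟩
        have hR := RR_pos (m := m) hν p
        have e1 : p * ((1 - p) ^ m / (RR m ν p + ν)) = RR m ν p - ν := by
          have := RR_sq (m := m) (ν := ν) hp
          field_simp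
          linarith
        have h4 := sub_nonneg.2 (le_RR (m := m) hν p)
        rw [indicator_of_mem (show p ∈ Iic (1 : ℝ) from hp.2), ← ENNReal.ofReal_mul hp0.le, e1,
          ← ENNReal.ofReal_add h4 (by positivity), ← ENNReal.ofReal_mul h4,
          ← ENNReal.ofReal_pow h, ← ENNReal.ofReal_mul hp0.le] at h3
        have e2 : (RR m ν p - ν) * (RR m ν p - ν + 2 * ν) = p * (1 - p) ^ m := by
          have := RR_sq (m := m) (ν := ν) hp
          linarith
        rw [e2] at h3
        exact lt_irrefl _ h3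
      · simp at h3)
  have hzint : ∫⁻ w, z w = ENNReal.ofReal (ZZ m ν) := by
    rw [← lintegral_Z m hν, lintegral_Ioi_eq_exp]
  rw [hzint, lintegral_const_mul _ hAm] at key
  have hT := TT_nonneg (m := m) hν
  set β : ℝ := -(1 / 2) * TT m ν with hβ
  have hpt : ∀ y, ENNReal.ofReal c⁻¹ * B y ≤
      (ENNReal.ofReal c⁻¹ * B y - ENNReal.ofReal (2 * ν)) +
      ((Icc β 0).indicator (fun _ => ENNReal.ofReal (2 * ν)) y +
        (Iic β).indicator (fun y => ENNReal.ofReal (c⁻¹ * (Real.exp y / a))) y) := by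
    intro y
    by_cases h1 : 0 < y
    · simp [hB2 y h1]
    by_cases h2 : β ≤ y
    · rw [indicator_of_mem (show y ∈ Icc β 0 from ⟨h2, not_lt.1 h1⟩), ← add_assoc]
      exact le_tsub_add.trans le_self_add
    · rw [indicator_of_mem (show y ∈ Iic β from (not_le.1 h2).le),
        ENNReal.ofReal_mul (p := c⁻¹) (by positivity)]
      exact (mul_le_mul_right (hB1 y) _).trans (le_add_self.trans le_add_self)
  have hint := lintegral_mono (μ := volume) hpt
  have hsm : Measurable fun y => ENNReal.ofReal c⁻¹ * B y - ENNReal.ofReal (2 * ν) :=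
    (hBm.const_mul _).sub measurable_const
  rw [lintegral_const_mul _ hBm, lintegral_add_left hsm,
    lintegral_add_left (measurable_const.indicator measurableSet_Icc),
    lintegral_indicator_const measurableSet_Icc, lintegral_indicator measurableSet_Iic,
    ← ofReal_integral_eq_lintegral_ofReal
      (((integrableOn_exp_Iic β).div_const a).const_mul c⁻¹)
      (Eventually.of_forall fun y => by positivity),
    integral_const_mul, integral_div, integral_exp_Iic, Real.volume_Icc,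
    ← ENNReal.ofReal_mul (by positivity)] at hint
  have e3 : c⁻¹ * (Real.exp β / a) = c * a := by
    have : Real.exp β = (c * a) ^ 2 := by
      rw [hbal, sq, ← Real.exp_add, hβ]; congr 1; ring
    rw [this]; field_simp
  rw [e3] at hint
  have hfin : ENNReal.ofReal c * (ENNReal.ofReal a + ∫⁻ x, A x) +
      ENNReal.ofReal c⁻¹ * ∫⁻ x, B x ≤ 2 * ENNReal.ofReal (VV m ν) := by
    calc _ ≤ ENNReal.ofReal c * (ENNReal.ofReal a + ∫⁻ x, A x) + _ := add_le_add_right hint _
      _ = ENNReal.ofReal (c * a) + (ENNReal.ofReal c * (∫⁻ x, A x) +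
          ∫⁻ y, (ENNReal.ofReal c⁻¹ * B y - ENNReal.ofReal (2 * ν))) +
          (ENNReal.ofReal (2 * ν * (0 - β)) + ENNReal.ofReal (c * a)) := by
        rw [mul_add, ENNReal.ofReal_mul hc0.le]; ring
      _ ≤ ENNReal.ofReal (c * a) + ENNReal.ofReal (ZZ m ν) +
          (ENNReal.ofReal (2 * ν * (0 - β)) + ENNReal.ofReal (c * a)) := by gcongr
      _ = 2 * ENNReal.ofReal (VV m ν) := by
        have h0 : 0 ≤ 2 * ν * (0 - β) := by rw [hβ]; nlinarith
        rw [← ENNReal.ofReal_add (by positivity) (ZZ_nonneg hν),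
          ← ENNReal.ofReal_add h0 (by positivity),
          ← ENNReal.ofReal_add (add_nonneg (by positivity) (ZZ_nonneg hν))
            (add_nonneg h0 (by positivity)), ← ENNReal.ofReal_ofNat 2,
          ← ENNReal.ofReal_mul zero_le_two, VV, ← ZZ_add hν, ← hbal, hβ]
        congr 1; ring
  have := mul_le_sq_of_add_le hfin
  rwa [mul_mul_mul_comm, hcc, one_mul] at this

lemma lintegral_Ioi_scale (f : ℝ → ℝ≥0∞) {h : ℝ} (h0 : 0 < h) :
    ∫⁻ t in Ioi (0 : ℝ), f t = ENNReal.ofReal h * ∫⁻ t in Ioi (0 : ℝ), f (h * t) := by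
  have := lintegral_image_eq_lintegral_abs_deriv_mul (s := Ioi (0 : ℝ)) (f := fun t => h * t)
    (f' := fun _ => h) measurableSet_Ioi
    (fun x _ => by simpa using ((hasDerivAt_id x).const_mul h).hasDerivWithinAt)
    (fun x _ y _ hxy => mul_left_cancel₀ h0.ne' hxy) f
  rw [image_const_mul_Ioi_zero h0, abs_of_pos h0] at this
  rw [this, lintegral_const_mul' _ _ ENNReal.ofReal_ne_top]

variable {n : ℕ}

lemma sym_bound {M : Set (E (n + 1))} (hM : IsCompact M) (hc : Convex ℝ M)
    (hsym : ∀ x ∈ M, -x ∈ M) (hv : volume M ≠ 0) {h : ℝ} (h0 : 0 < h) (hh : cons h 0 ∈ M) :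
    ∃ ν, 0 < ν ∧ (volume M + ENNReal.ofReal (2 * h) * volume (tail '' M)) *
      volume (polarAt M 1) ≤ 4 * kap n ^ 2 * ENNReal.ofReal (VV n ν) ^ 2 := by
  have hS := isCompact_steiner hM
  have hP := (isClosed_polarAt M 1).measurableSet
  have hk0 := kap_ne_zero n
  have hkt := kap_ne_top n
  have hkk : kap n * (kap n)⁻¹ = 1 := ENNReal.mul_inv_cancel hk0 hkt
  have hT : IsCompact (tail '' M) := hM.image continuous_tail
  have hle : ∀ t, volume (hs (steiner M) t) ≤ volume (tail '' M) := fun t =>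
    measure_mono fun y ⟨a, _, ha, _⟩ => ⟨_, ha, rfl⟩
  have hvol : volume M = 2 * ∫⁻ t in Ioi (0 : ℝ), volume (hs (steiner M) t) := by
    rw [← volume_steiner hM hc, volume_eq_two_mul hS.measurableSet (steiner_neg hsym)]
  have hT0 : volume (tail '' M) ≠ 0 := by
    intro h1
    apply hv
    have : ∀ t, volume (hs (steiner M) t) = 0 := fun t => le_zero_iff.1 (h1 ▸ hle t)
    simp [hvol, this]
  have hat : (kap n)⁻¹ * volume (tail '' M) ≠ ⊤ :=
    ENNReal.mul_ne_top (ENNReal.inv_ne_top.2 hk0) hT.measure_lt_top.ne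
  have ha0 : (kap n)⁻¹ * volume (tail '' M) ≠ 0 := mul_ne_zero (ENNReal.inv_ne_zero.2 hkt) hT0
  have hsb : ∀ t s, (kap n)⁻¹ * volume (hs (steiner M) (h * t)) *
      ((kap n)⁻¹ * volume (hs (polarAt M 1) (h⁻¹ * s))) ≤
      if 0 ≤ 1 - t * s then ENNReal.ofReal (1 - t * s) ^ n else 0 := by
    intro t s
    have := slice_bound (santalo n) hM hc hsym (h * t) (h⁻¹ * s)
    rw [show h * t * (h⁻¹ * s) = t * s by field_simp] at this
    rw [mul_mul_mul_comm]
    refine (mul_le_mul_right this _).trans ?_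
    split_ifs
    · rw [← mul_assoc, sq, mul_mul_mul_comm, mul_comm _ (kap n), hkk]; simp
    · simp
  obtain ⟨R, hR0, hR⟩ := hS.isBounded.subset_closedBall_lt 0 0
  obtain ⟨ν, hν, key⟩ := oneD n
    (φ := fun t => (kap n)⁻¹ * volume (hs (steiner M) (h * t)))
    (ψ := fun s => (kap n)⁻¹ * volume (hs (polarAt M 1) (h⁻¹ * s)))
    (((measurable_hs hS.measurableSet).comp (measurable_const_mul h)).const_mul _)
    (((measurable_hs hP).comp (measurable_const_mul h⁻¹)).const_mul _)
    (ENNReal.toReal_pos ha0 hat) (fun t s _ _ => hsb t s)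
    (fun s _ => by
      have := hsb 0 s
      rw [mul_zero, hs_steiner_zero] at this
      rw [ENNReal.ofReal_toReal hat]
      simpa using this)
    (fun s hs1 => by
      have : hs (polarAt M 1) (h⁻¹ * s) = ∅ := by
        rw [eq_empty_iff_forall_notMem]
        intro y hy
        have := hy _ hh
        rw [inner_cons, inner_zero_left, add_zero, mul_inv_cancel_left₀ h0.ne'] at this
        linarith
      simp [this])
    (by
      refine ne_top_of_le_ne_top (ENNReal.mul_ne_top (ENNReal.ofReal_ne_top (r := R / h)) hat)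
        (iSup_le fun x => ?_)
      by_cases hx : Real.exp x ≤ R / h
      · exact mul_le_mul' (ENNReal.ofReal_le_ofReal hx) (mul_le_mul_right (hle _) _)
      · have : hs (steiner M) (h * Real.exp x) = ∅ := by
          rw [eq_empty_iff_forall_notMem]
          intro y hy
          have h1 : |h * Real.exp x| ≤ R :=
            (PiLp.norm_apply_le (cons (h * Real.exp x) y) 0).trans
              (mem_closedBall_zero_iff.1 (hR hy))
          rw [le_div_iff₀ h0] at hx
          exact hx (by linarith [le_abs_self (h * Real.exp x)])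
        simp [this])
    (by
      intro h1
      apply hv
      rw [lintegral_const_mul' _ _ (ENNReal.inv_ne_top.2 hk0), mul_eq_zero] at h1
      rw [hvol, lintegral_Ioi_scale _ h0, h1.resolve_left (ENNReal.inv_ne_zero.2 hkt)]
      simp)
  refine ⟨ν, hν, ?_⟩
  rw [ENNReal.ofReal_toReal hat, lintegral_const_mul' _ _ (ENNReal.inv_ne_top.2 hk0),
    lintegral_const_mul' _ _ (ENNReal.inv_ne_top.2 hk0)] at key
  rw [hvol, volume_eq_two_mul hP (polarAt_neg hsym 1), lintegral_Ioi_scale _ h0,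
    lintegral_Ioi_scale (fun t => volume (hs (polarAt M 1) t)) (inv_pos.2 h0), ENNReal.ofReal_mul zero_le_two, ENNReal.ofReal_ofNat]
  refine le_trans (le_of_eq ?_) (mul_le_mul_right key _)
  have hhh : ENNReal.ofReal h * ENNReal.ofReal h⁻¹ = 1 := by
    rw [← ENNReal.ofReal_mul h0.le, mul_inv_cancel₀ h0.ne', ENNReal.ofReal_one]
  generalize ∫⁻ t in Ioi (0 : ℝ), volume (hs (steiner M) (h * t)) = X
  generalize ∫⁻ t in Ioi (0 : ℝ), volume (hs (polarAt M 1) (h⁻¹ * t)) = Y
  generalize volume (tail '' M) = W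
  calc (2 * (ENNReal.ofReal h * X) + 2 * ENNReal.ofReal h * W) * (2 * (ENNReal.ofReal h⁻¹ * Y))
      = 4 * (ENNReal.ofReal h * ENNReal.ofReal h⁻¹) * ((W + X) * Y) := by ring
    _ = 4 * ((kap n * (kap n)⁻¹) * (kap n * (kap n)⁻¹)) * ((W + X) * Y) := by rw [hhh, hkk]; simp
    _ = _ := by ring

lemma polarAt_iso (T : E n ≃ₗᵢ[ℝ] E n) (M : Set (E n)) :
    polarAt (T '' M) 1 = T '' polarAt M 1 := by
  ext y
  constructor
  · intro hy
    refine ⟨T.symm y, fun x hx => ?_, by simp⟩
    have := hy _ ⟨x, hx, rfl⟩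
    rwa [← T.inner_map_map, T.apply_symm_apply]
  · rintro ⟨z, hz, rfl⟩ _ ⟨x, hx, rfl⟩
    rw [T.inner_map_map]
    exact hz x hx

lemma ht_bound_ne {K : Set (E (n + 1))} (hK : IsBody K) {p : E (n + 1)}
    (hp : (1 / 2 : ℝ) • p ∈ relBall K) (hp0 : p ≠ 0) :
    ∃ ν, 0 < ν ∧ volume (hull K p) * volume (polarAt (relBall K) 1) ≤
      4 * kap n ^ 2 * ENNReal.ofReal (VV n ν) ^ 2 := by
  obtain ⟨T, hT⟩ := exists_iso p
  have hT1 : IsCompact (T '' K) := hK.1.image T.continuous
  have hT2 : Convex ℝ (T '' K) :=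
    hK.2.1.linear_image (T.toLinearEquiv : E (n + 1) →ₗ[ℝ] E (n + 1))
  have e1 : T '' hull K p = hull (T '' K) (cons ‖p‖ 0) := by
    rw [← hT]
    exact image_hull (T.toLinearEquiv : E (n + 1) →ₗ[ℝ] E (n + 1)) hK.2.1 p
  have e2 : relBall (T '' K) = T '' relBall K :=
    relBall_image (T.toLinearEquiv : E (n + 1) →ₗ[ℝ] E (n + 1)) K
  have e3 : relBall (tail '' (T '' K)) = tail '' relBall (T '' K) := relBall_image (tailL n) _
  have hpos : 0 < ‖p‖ := norm_pos_iff.2 hp0
  obtain ⟨ν, hν, key⟩ := sym_bound (isCompact_relBall hT1) (convex_relBall hT2) relBall_neg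
    (by
      rw [e2, volume_iso]
      obtain ⟨r, hr, hball⟩ := zero_mem_interior_relBall hK.2.2
      exact ((measure_closedBall_pos volume _ hr).trans_le (measure_mono hball)).ne')
    (half_pos hpos) (by
      rw [e2]
      refine ⟨_, hp, ?_⟩
      rw [map_smul, hT, smul_cons, smul_zero]
      congr 1; ring)
  refine ⟨ν, hν, le_trans ?_ key⟩
  rw [← volume_iso T, e1, volume_hull hT1 hT2 hpos.le, ← volume_iso T (polarAt _ _),
    ← polarAt_iso, ← e2, mul_div_cancel₀ _ (two_ne_zero), ← e3]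
  exact mul_le_mul_left (add_le_add (volume_le_relBall hT1)
    (mul_le_mul_right (volume_le_relBall (hT1.image continuous_tail)) _)) _

theorem ht_upper {K : Set (E (n + 1))} (hK : IsBody K) {p : E (n + 1)}
    (hp : ((p +ᵥ K) ∩ K).Nonempty) :
    ∃ ν, 0 < ν ∧ volHT (relBall K) (hull K p) ≤ 4 * kappa n ^ 2 / kappa (n + 1) * VV n ν ^ 2 := by
  have h1 : ∃ ν, 0 < ν ∧ volume (hull K p) * volume (polarAt (relBall K) 1) ≤
      4 * kap n ^ 2 * ENNReal.ofReal (VV n ν) ^ 2 := by
    by_cases hp0 : p = 0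
    · obtain ⟨r, hr, hball⟩ := zero_mem_interior_relBall hK.2.2
      have hn : ‖cons r (0 : E n)‖ = r := by
        rw [← sq_eq_sq₀ (norm_nonneg _) hr.le, norm_sq_cons]; simp
      obtain ⟨ν, hν, key⟩ := ht_bound_ne hK (p := cons r 0) (hball (by
        rw [mem_closedBall_zero_iff, norm_smul, hn]
        norm_num; linarith)) (by rw [← norm_pos_iff, hn]; exact hr)
      refine ⟨ν, hν, le_trans (mul_le_mul_left (measure_mono fun z hz => ?_) _) key⟩
      obtain ⟨x, hx, τ, _, _, rfl⟩ := (mem_hull hK.2.1).1 hz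
      exact (mem_hull hK.2.1).2 ⟨x, hx, 0, le_rfl, zero_le_one, by simp [hp0]⟩
    · exact ht_bound_ne hK (half_mem_relBall hp) hp0
  obtain ⟨ν, hν, key⟩ := h1
  refine ⟨ν, hν, ?_⟩
  have h2 := ENNReal.toReal_mono (ENNReal.mul_ne_top (ENNReal.mul_ne_top (by simp)
    (ENNReal.pow_ne_top (kap_ne_top n))) (ENNReal.pow_ne_top ENNReal.ofReal_ne_top)) key
  simp only [ENNReal.toReal_mul, ENNReal.toReal_pow, ENNReal.toReal_ofNat,
    ENNReal.toReal_ofReal (VV_pos hν).le] at h2
  rw [volHT, div_mul_eq_mul_div, div_mul_eq_mul_div]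
  refine div_le_div_of_nonneg_right ?_ (kappa_pos _).le
  rw [mul_comm]
  exact h2

end Pool.Agent.Lib.MP_ccd96b_co
end
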