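import Pool.Agent.Lib.MP_ccd96b_co.Profile

/-!
The maximiser of the profile function is the unique positive root of `exp (-T / 4) = 2 ν`.
-/

set_option autoImplicit false

open MeasureTheory Set Filter Topology Real

namespace Pool.Agent.Lib.MP_ccd96b_co

noncomputable def CC (m : ℕ) (ν : ℝ) : ℝ := ∫ p in (0 : ℝ)..1, (1 - p) ^ m / RR m ν p ^ 3

lemma dRR (m : ℕ) {ν : ℝ} (hν : 0 < ν) (p : ℝ) : HasDerivAt (fun x => RR m x p) (ν / RR m ν p) ν := by
  have h0 : ν ^ 2 + |p * (1 - p) ^ m| ≠ 0 := by positivity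
  refine (((hasDerivAt_pow 2 ν).add_const _).sqrt h0).congr_deriv ?_
  simp only [RR]; norm_num; field_simp

lemma boundC (m : ℕ) {ν x : ℝ} (hν : 0 < ν) (hx : x ∈ Ioi (ν / 2)) {p : ℝ} (hp : p ∈ uIoc (0 : ℝ) 1) :
    0 ≤ (1 - p) ^ m / RR m x p ^ 3 ∧ (1 - p) ^ m / RR m x p ^ 3 ≤ 1 / (ν / 2) ^ 3 ∧
      x * ((1 - p) ^ m / RR m x p ^ 3) ≤ 1 / (ν / 2) ^ 2 := by
  rw [uIoc_of_le zero_le_one] at hp
  have hx0 : 0 < x := lt_trans (half_pos hν) hx
  have h1 := w_mem (m := m) (Ioc_subset_Icc_self hp)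
  have h2 := le_RR (m := m) hx0 p
  have h3 : ν / 2 ≤ RR m x p := (le_of_lt hx).trans h2
  have h4 := RR_pos (m := m) hx0 p
  refine ⟨div_nonneg h1.1 (by positivity), div_le_div₀ zero_le_one h1.2 (by positivity) (by gcongr), ?_⟩
  calc x * ((1 - p) ^ m / RR m x p ^ 3) ≤ RR m x p * (1 / RR m x p ^ 3) := mul_le_mul h2 (div_le_div_of_nonneg_right h1.2 (by positivity)) (div_nonneg h1.1 (by positivity)) h4.le
    _ = 1 / RR m x p ^ 2 := by field_simp
    _ ≤ _ := by gcongr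

theorem dTT (m : ℕ) {ν : ℝ} (hν : 0 < ν) : HasDerivAt (TT m) (-CC m ν) ν := by
  have := (intervalIntegral.hasDerivAt_integral_of_dominated_loc_of_deriv_le (μ := volume) (a := 0) (b := 1)
    (F := fun x p => (1 - p) ^ m / (RR m x p * (RR m x p + x)))
    (F' := fun x p => -((1 - p) ^ m / RR m x p ^ 3)) (x₀ := ν) (s := Ioi (ν / 2))
    (bound := fun _ => 1 / (ν / 2) ^ 3) (Ioi_mem_nhds (half_lt_self hν))
    ((eventually_gt_nhds hν).mono fun x hx => (cont_T hx).aestronglyMeasurable)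
    ((cont_T hν).intervalIntegrable 0 1)
    ((Continuous.div (by fun_prop) ((continuous_RR' m ν).pow 3)
      fun p => (pow_pos (RR_pos hν p) 3).ne').neg.aestronglyMeasurable)
    (Eventually.of_forall fun p hp x hx => by
      rw [norm_neg, Real.norm_of_nonneg (boundC m hν hx hp).1]; exact (boundC m hν hx hp).2.1)
    intervalIntegrable_const
    (Eventually.of_forall fun p hp x hx => by
      have hx0 : 0 < x := lt_trans (half_pos hν) hx
      have h4 := RR_pos (m := m) hx0 p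
      refine ((hasDerivAt_const x ((1 - p) ^ m)).div ((dRR m hx0 p).mul
        ((dRR m hx0 p).add (hasDerivAt_id' x))) (mul_pos h4 (add_pos h4 hx0)).ne').congr_deriv ?_
      simp only [Pi.mul_apply, Pi.add_apply]
      field_simp
      ring)).2
  rwa [intervalIntegral.integral_neg] at this
theorem dII (m : ℕ) {ν : ℝ} (hν : 0 < ν) : HasDerivAt (II m) (-(ν * CC m ν)) ν := by
  have := (intervalIntegral.hasDerivAt_integral_of_dominated_loc_of_deriv_le (μ := volume) (a := 0) (b := 1)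
    (F := fun x p => (1 - p) ^ m / RR m x p)
    (F' := fun x p => -(x * ((1 - p) ^ m / RR m x p ^ 3))) (x₀ := ν) (s := Ioi (ν / 2))
    (bound := fun _ => 1 / (ν / 2) ^ 2) (Ioi_mem_nhds (half_lt_self hν))
    ((eventually_gt_nhds hν).mono fun x hx => (cont_I hx).aestronglyMeasurable)
    ((cont_I hν).intervalIntegrable 0 1)
    ((continuous_const.mul (Continuous.div (by fun_prop) ((continuous_RR' m ν).pow 3)
      fun p => (pow_pos (RR_pos hν p) 3).ne')).neg.aestronglyMeasurable)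
    (Eventually.of_forall fun p hp x hx => by
      rw [norm_neg, Real.norm_of_nonneg (mul_nonneg (lt_trans (half_pos hν) hx).le (boundC m hν hx hp).1)]
      exact (boundC m hν hx hp).2.2)
    intervalIntegrable_const
    (Eventually.of_forall fun p hp x hx => by
      have hx0 : 0 < x := lt_trans (half_pos hν) hx
      have h4 := RR_pos (m := m) hx0 p
      refine ((hasDerivAt_const x ((1 - p) ^ m)).div (dRR m hx0 p) h4.ne').congr_deriv ?_
      field_simp
      ring)).2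
  rwa [intervalIntegral.integral_neg, intervalIntegral.integral_const_mul] at this

theorem dVV (m : ℕ) {ν : ℝ} (hν : 0 < ν) :
    HasDerivAt (VV m) (CC m ν / 4 * (exp (-(1 / 4) * TT m ν) - 2 * ν)) ν :=
  ((((dTT m hν).const_mul (-(1 / 4))).exp).add ((dII m hν).const_mul (1 / 2))).congr_deriv (by ring)

lemma CC_pos (m : ℕ) {ν : ℝ} (hν : 0 < ν) : 0 < CC m ν := by
  refine intervalIntegral.intervalIntegral_pos_of_pos_on ((Continuous.div (by fun_prop)
    ((continuous_RR' m ν).pow 3) fun p => (pow_pos (RR_pos hν p) 3).ne').intervalIntegrable 0 1)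
    (fun p hp => div_pos (pow_pos (sub_pos.2 hp.2) m) (pow_pos (RR_pos hν p) 3)) one_pos

/-- first-order condition at the maximiser -/
theorem foc (m : ℕ) {ν : ℝ} (hν : 0 < ν) (h : ∀ ν', 0 < ν' → VV m ν' ≤ VV m ν) :
    exp (-(1 / 4) * TT m ν) = 2 * ν := by
  have h1 : IsLocalMax (VV m) ν := (eventually_gt_nhds hν).mono fun x hx => h x hx
  have h2 := h1.hasDerivAt_eq_zero (dVV m hν)
  have h3 := CC_pos m hν
  rcases mul_eq_zero.1 h2 with h4 | h4 <;> linarith

lemma cont_mu (m : ℕ) {ν : ℝ} (hν : 0 < ν) : Continuous fun p => ν * ((1 - p) ^ m / RR m ν p ^ 3) :=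
  continuous_const.mul (Continuous.div (by fun_prop) ((continuous_RR' m ν).pow 3)
    fun p => (pow_pos (RR_pos hν p) 3).ne')

lemma pt (m : ℕ) {ν p : ℝ} (hν : 0 < ν) (hp : p ∈ Icc (0 : ℝ) 1) :
    p * (ν * ((1 - p) ^ m / RR m ν p ^ 3)) ≤ 2 / 5 := by
  have h1 := RR_sq (m := m) (ν := ν) hp
  have h2 := RR_pos (m := m) hν p
  have e : p * (ν * ((1 - p) ^ m / RR m ν p ^ 3)) = ν * (RR m ν p ^ 2 - ν ^ 2) / RR m ν p ^ 3 := by
    rw [h1]; ring
  rw [e, div_le_iff₀ (by positivity)]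
  generalize RR m ν p = R at h2
  nlinarith [mul_nonneg (sq_nonneg (ν - 29 / 50 * R)) (show 0 ≤ ν + 29 / 25 * R by positivity),
    mul_pos hν (pow_pos h2 2), pow_pos h2 3]

lemma intG (k : ℕ) {ν s t : ℝ} (hν : 0 < ν) (hs : 0 ≤ s) (hst : s ≤ t) (ht : t ≤ 1) :
    ∫ p in s..t, ν * (((1 - p) ^ (k + 1) - (k + 1) * p * (1 - p) ^ k) / RR (k + 1) ν p ^ 3) =
      2 * ν / RR (k + 1) ν s - 2 * ν / RR (k + 1) ν t := by
  have hc : Continuous fun p => ν * (((1 - p) ^ (k + 1) - (k + 1) * p * (1 - p) ^ k) / RR (k + 1) ν p ^ 3) :=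
    continuous_const.mul (Continuous.div (by fun_prop) ((continuous_RR' _ ν).pow 3)
      fun p => (pow_pos (RR_pos hν p) 3).ne')
  rw [intervalIntegral.integral_eq_sub_of_hasDerivAt
    (f := fun p => -(2 * ν / √(ν ^ 2 + p * (1 - p) ^ (k + 1)))) (fun p hp => ?_) (hc.intervalIntegrable s t),
    RR_eq ⟨hs, hst.trans ht⟩, RR_eq ⟨hs.trans hst, ht⟩]
  · ring
  rw [uIcc_of_le hst] at hp
  have hp' : p ∈ Icc (0 : ℝ) 1 := ⟨hs.trans hp.1, hp.2.trans ht⟩
  have h0 : 0 < ν ^ 2 + p * (1 - p) ^ (k + 1) := by have := q_nonneg (m := k + 1) hp'; positivity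
  have h1 : 0 < √(ν ^ 2 + p * (1 - p) ^ (k + 1)) := Real.sqrt_pos.2 h0
  refine ((hasDerivAt_const p (2 * ν)).div ((((hasDerivAt_id' p).mul
    (((hasDerivAt_id' p).const_sub 1).pow (k + 1))).const_add (ν ^ 2)).sqrt h0.ne') h1.ne').neg.congr_deriv ?_
  rw [RR_eq hp']
  simp only [Pi.mul_apply, Pi.pow_apply, Nat.add_sub_cancel]
  push_cast
  field_simp
  ring

theorem nuC (k : ℕ) {ν : ℝ} (hν : 0 < ν) : ν * CC (k + 1) ν < 4 := by
  set M : ℝ := k + 1 with hM
  have hM1 : 1 ≤ M := by rw [hM]; linarith [Nat.cast_nonneg (α := ℝ) k]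
  have hI := fun s t => (cont_mu (k + 1) hν).intervalIntegrable (μ := volume) s t
  have hc : Continuous fun p => ν * (((1 - p) ^ (k + 1) - M * p * (1 - p) ^ k) / RR (k + 1) ν p ^ 3) :=
    continuous_const.mul (Continuous.div (by fun_prop) ((continuous_RR' _ ν).pow 3)
      fun p => (pow_pos (RR_pos hν p) 3).ne')
  have q1 : (0 : ℝ) < 1 / (M + 1) := by positivity
  have q2 : 1 / (M + 1) ≤ 2 / (M + 2) := by rw [div_le_div_iff₀ (by positivity) (by positivity)]; linarith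
  have q3 : 2 / (M + 2) ≤ 4 / (M + 4) := by rw [div_le_div_iff₀ (by positivity) (by positivity)]; linarith
  have q4 : 4 / (M + 4) ≤ 1 := by rw [div_le_one (by positivity)]; linarith
  have R0 : RR (k + 1) ν 0 = ν := by simp [RR, Real.sqrt_sq hν.le]
  have R1 : RR (k + 1) ν 1 = ν := by simp [RR, Real.sqrt_sq hν.le]
  have mid : ∀ s t : ℝ, 0 < s → s ≤ t → t ≤ 1 →
      ∫ p in s..t, ν * ((1 - p) ^ (k + 1) / RR (k + 1) ν p ^ 3) ≤ (t - s) * (2 / 5 / s) := by
    intro s t hs hst ht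
    have := intervalIntegral.integral_mono_on hst (hI s t) (g := fun _ => 2 / 5 / s)
      intervalIntegrable_const fun p hp => by
        have hp' : p ∈ Icc (0 : ℝ) 1 := ⟨hs.le.trans hp.1, hp.2.trans ht⟩
        rw [le_div_iff₀ hs, mul_comm]
        exact (mul_le_mul_of_nonneg_right hp.1 (mul_nonneg hν.le (div_nonneg (w_mem hp').1
          (pow_pos (RR_pos hν p) 3).le))).trans (pt _ hν hp')
    rwa [intervalIntegral.integral_const, smul_eq_mul] at this
  have a1 : ∫ p in (0 : ℝ)..1 / (M + 1), ν * ((1 - p) ^ (k + 1) / RR (k + 1) ν p ^ 3) ≤ 2 + 2 / 5 := by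
    have := intervalIntegral.integral_mono_on q1.le (hI _ _)
      ((hc.add (continuous_const (y := 2 / 5 * (M + 1)))).intervalIntegrable _ _) fun p hp => by
        have hp' : p ∈ Icc (0 : ℝ) 1 := ⟨hp.1, hp.2.trans (q2.trans (q3.trans q4))⟩
        have h1 := pt (k + 1) hν hp'
        have h2 : p * (M + 1) ≤ 1 := (le_div_iff₀ (by positivity)).1 hp.2
        have h3 : 0 ≤ p * (ν * ((1 - p) ^ k / RR (k + 1) ν p ^ 3)) :=
          mul_nonneg hp.1 (mul_nonneg hν.le (div_nonneg (w_mem hp').1 (pow_pos (RR_pos hν p) 3).le))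
        have e1 : p * (ν * ((1 - p) ^ (k + 1) / RR (k + 1) ν p ^ 3)) =
            (1 - p) * (p * (ν * ((1 - p) ^ k / RR (k + 1) ν p ^ 3))) := by ring
        have e2 : ν * (((1 - p) ^ (k + 1) - M * p * (1 - p) ^ k) / RR (k + 1) ν p ^ 3) =
            ν * ((1 - p) ^ (k + 1) / RR (k + 1) ν p ^ 3) -
              M * (p * (ν * ((1 - p) ^ k / RR (k + 1) ν p ^ 3))) := by ring
        simp only [Pi.add_apply]
        rw [e2]
        rw [e1] at h1
        generalize p * (ν * ((1 - p) ^ k / RR (k + 1) ν p ^ 3)) = X at h1 h3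
        nlinarith
    simp only [Pi.add_apply] at this
    rw [intervalIntegral.integral_add (hc.intervalIntegrable _ _) intervalIntegrable_const,
      intG k hν le_rfl q1.le (q2.trans (q3.trans q4)), R0, intervalIntegral.integral_const] at this
    have e : (1 / (M + 1) - 0) • (2 / 5 * (M + 1)) = (2 / 5 : ℝ) := by
      rw [smul_eq_mul]; field_simp; ring
    have h4 : 0 < 2 * ν / RR (k + 1) ν (1 / (M + 1)) := div_pos (by positivity) (RR_pos hν _)
    rw [e, mul_div_cancel_right₀ _ hν.ne'] at this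
    linarith
  have a2 := (mid _ _ q1 q2 (q3.trans q4)).trans (show _ ≤ (2 / 5 : ℝ) by
    rw [← sub_nonneg]; field_simp; ring_nf; positivity)
  have a3 := (mid _ _ (q1.trans_le q2) q3 q4).trans (show _ ≤ (2 / 5 : ℝ) by
    rw [← sub_nonneg]; field_simp; ring_nf; positivity)
  have a4 : ∫ p in 4 / (M + 4)..1, ν * ((1 - p) ^ (k + 1) / RR (k + 1) ν p ^ 3) ≤ 2 / 3 := by
    have q5 : (0 : ℝ) ≤ 4 / (M + 4) := by positivity
    have := intervalIntegral.integral_mono_on q4 (hI _ _)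
      ((hc.intervalIntegrable _ _).const_mul (-(1 / 3))) fun p hp => by
        have hp' : p ∈ Icc (0 : ℝ) 1 := ⟨q5.trans hp.1, hp.2⟩
        have h2 : 4 ≤ p * (M + 4) := (div_le_iff₀ (by positivity)).1 hp.1
        have h3 : 0 ≤ ν * ((1 - p) ^ k / RR (k + 1) ν p ^ 3) :=
          mul_nonneg hν.le (div_nonneg (w_mem hp').1 (pow_pos (RR_pos hν p) 3).le)
        have e1 : ν * ((1 - p) ^ (k + 1) / RR (k + 1) ν p ^ 3) =
            (1 - p) * (ν * ((1 - p) ^ k / RR (k + 1) ν p ^ 3)) := by ring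
        have e2 : ν * (((1 - p) ^ (k + 1) - M * p * (1 - p) ^ k) / RR (k + 1) ν p ^ 3) =
            (1 - p - M * p) * (ν * ((1 - p) ^ k / RR (k + 1) ν p ^ 3)) := by ring
        rw [e1, e2]
        generalize ν * ((1 - p) ^ k / RR (k + 1) ν p ^ 3) = X at h3
        nlinarith
    rw [intervalIntegral.integral_const_mul (-(1 / 3)), intG k hν q5 q4 le_rfl, R1,
      mul_div_cancel_right₀ _ hν.ne'] at this
    have h4 : 0 < 2 * ν / RR (k + 1) ν (4 / (M + 4)) := div_pos (by positivity) (RR_pos hν _)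
    linarith
  rw [CC, ← intervalIntegral.integral_const_mul,
    ← intervalIntegral.integral_add_adjacent_intervals (hI 0 (1 / (M + 1))) (hI _ 1),
    ← intervalIntegral.integral_add_adjacent_intervals (hI _ (2 / (M + 2))) (hI _ 1),
    ← intervalIntegral.integral_add_adjacent_intervals (hI _ (4 / (M + 4))) (hI _ 1)]
  linarith

/-- the critical equation has at most one positive root -/
theorem uniq (k : ℕ) {a b : ℝ} (ha : 0 < a) (hb : 0 < b)
    (h1 : exp (-(1 / 4) * TT (k + 1) a) = 2 * a) (h2 : exp (-(1 / 4) * TT (k + 1) b) = 2 * b) : a = b := by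
  have hd : ∀ x : ℝ, 0 < x → HasDerivAt (fun x => 1 / 4 * TT (k + 1) x + log (2 * x))
      (1 / 4 * -CC (k + 1) x + 2 * 1 / (2 * x)) x := fun x hx =>
    ((dTT _ hx).const_mul (1 / 4)).add (((hasDerivAt_id' x).const_mul 2).log (by positivity))
  have hm : StrictMonoOn (fun x => 1 / 4 * TT (k + 1) x + log (2 * x)) (Ioi 0) := by
    refine strictMonoOn_of_deriv_pos (convex_Ioi 0)
      (fun x hx => (hd x hx).continuousAt.continuousWithinAt) fun x hx => ?_
    rw [interior_Ioi] at hx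
    have hx' : 0 < x := hx
    rw [(hd x hx).deriv]
    have := nuC k hx'
    have e : 1 / 4 * -CC (k + 1) x + 2 * 1 / (2 * x) = (4 - x * CC (k + 1) x) / (4 * x) := by
      field_simp; ring
    rw [e]
    exact div_pos (by linarith) (by positivity)
  refine hm.injOn ha hb ?_
  rw [← h1, ← h2, log_exp, log_exp]
  ring

theorem exists_root (k : ℕ) : ∃ ν, 0 < ν ∧ (∀ ν', 0 < ν' → VV (k + 1) ν' ≤ VV (k + 1) ν) ∧
    ∀ x, (0 < x ∧ exp (-(1 / 4) * TT (k + 1) x) = 2 * x) ↔ x = ν := by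
  obtain ⟨ν, hν, hmax⟩ := exists_max (k + 1)
  have h := foc (k + 1) hν hmax
  exact ⟨ν, hν, hmax, fun x => ⟨fun hx => uniq k hx.1 hν hx.2 h, fun hx => hx ▸ ⟨hν, h⟩⟩⟩

end Pool.Agent.Lib.MP_ccd96b_co
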